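import Pool.Agent.Helper95.EXG.G5

/-! Project EX, module Y, piece EXY-10: pointwise limits. -/

set_option autoImplicit false

namespace Pool.Agent.Helper95.EXG

open Pool.Agent.Helper87.EX MeasureTheory Complex Filter
open scoped Topology ENNReal

/-- Limit of a cross ratio. Proof: `exp (-(3 T)) → 0`, `Tendsto.div`, `Tendsto.mul`. -/
theorem ratio_lim (A1 A2 A3 A4 B1 B2 B3 B4 : ℂ) (h3 : A3 ≠ 0) (h4 : A4 ≠ 0) :
    Tendsto (fun T : ℝ => (A1 + (Real.exp (-(3 * T)) : ℝ) * B1) * (A2 + (Real.exp (-(3 * T)) : ℝ) * B2) /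
      ((A3 + (Real.exp (-(3 * T)) : ℝ) * B3) * (A4 + (Real.exp (-(3 * T)) : ℝ) * B4))) atTop
      (𝓝 (A1 * A2 / (A3 * A4))) := by
  have h0 : Tendsto (fun T : ℝ => Real.exp (-(3 * T))) atTop (𝓝 0) := by
    refine Real.tendsto_exp_neg_atTop_nhds_zero.comp ?_
    exact tendsto_id.const_mul_atTop (by norm_num)
  have h1 : Tendsto (fun T : ℝ => ((Real.exp (-(3 * T)) : ℝ) : ℂ)) atTop (𝓝 0) := by
    have h := (Complex.continuous_ofReal.tendsto 0).comp h0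
    rw [Complex.ofReal_zero] at h
    exact h
  have h2 : ∀ A B : ℂ, Tendsto (fun T : ℝ => A + ((Real.exp (-(3 * T)) : ℝ) : ℂ) * B) atTop (𝓝 A) := by
    intro A B
    have h := (h1.mul_const B).const_add A
    rw [zero_mul, add_zero] at h
    exact h
  exact ((h2 A1 B1).mul (h2 A2 B2)).div ((h2 A3 B3).mul (h2 A4 B4)) (mul_ne_zero h3 h4)

/-- the triple products with the moved vector in front -/
lemma dt_moved (T : ℝ) (a b c : Fin 3 → ℂ) :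
    dt ![(Real.exp (2 * T) : ℂ) * a 0, (Real.exp (-T) : ℂ) * a 1, (Real.exp (-T) : ℂ) * a 2] b c
      = (Real.exp (2 * T) : ℂ) * (a 0 * b2 b c + ((Real.exp (-(3 * T)) : ℝ) : ℂ) *
        (-(a 1 * (b 0 * c 2 - b 2 * c 0)) + a 2 * (b 0 * c 1 - b 1 * c 0))) := by
  have h : (Real.exp (-T) : ℂ) = (Real.exp (2 * T) : ℂ) * ((Real.exp (-(3 * T)) : ℝ) : ℂ) := by
    rw [← Complex.ofReal_mul, ← Real.exp_add]
    congr 2
    ring
  unfold dt b2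
  simp only [Matrix.cons_val_zero, Matrix.cons_val_one, Matrix.cons_val]
  rw [h]
  ring

/-- Proof: `v_4 = a_T w_4`; `dt v_4 v_j v_k = exp (2 T) (w_4^0 b2 (w_j, w_k) + exp (-3 T) (..))` for `j, k <= 3`
(here `w_j^0 b2 (w_4, w_k)` etc. appear with `exp (-T)`); cancel `exp (4 T)` in the cross ratio, use
`ratio_lim` with `A_1 = w_4^0 b2 (w_0, w_2)`, .. and the continuity of `BW` at the limit
`x = b2(0,2) b2(1,3) / (b2(0,3) b2(1,2))`, which is not `0`, and not `1` since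
`b2(0,2) b2(1,3) - b2(0,3) b2(1,2) = b2(0,1) b2(2,3)` (Pluecker, `ring`). The right side is
`BW x = F3 (w_0, .., w_3)` by definition. -/
theorem lim34 (w : Fin 5 → E 1) (h : ∀ j k : Fin 5, j ≠ k → b2 (w j 0) (w k 0) ≠ 0)
    (h0 : ∀ j : Fin 5, w j 0 0 ≠ 0) :
    Tendsto (fun T : ℝ => DD (conf 3 T w) 4) atTop (𝓝 (F3 (fun j => w j.castSucc))) := by
  have hc4 : ∀ T : ℝ, conf 3 T w 4 = ![(Real.exp (2 * T) : ℂ) * w 4 0 0,
      (Real.exp (-T) : ℂ) * w 4 0 1, (Real.exp (-T) : ℂ) * w 4 0 2] := by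
    intro T
    simp [conf, al, de]
  have hc : ∀ (T : ℝ) (j : Fin 4), conf 3 T w j.castSucc = w j.castSucc 0 := by
    intro T j
    have hj : (j : ℕ) ≤ 3 := by
      have := j.2
      omega
    funext l
    fin_cases l <;> simp [conf, al, de, hj]
  have key : ∀ (T : ℝ), DD (conf 3 T w) 4 = BW
      ((w 4 0 0 * b2 (w 0 0) (w 2 0) + ((Real.exp (-(3 * T)) : ℝ) : ℂ) *
        (-(w 4 0 1 * (w 0 0 0 * w 2 0 2 - w 0 0 2 * w 2 0 0)) +
          w 4 0 2 * (w 0 0 0 * w 2 0 1 - w 0 0 1 * w 2 0 0))) *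
      (w 4 0 0 * b2 (w 1 0) (w 3 0) + ((Real.exp (-(3 * T)) : ℝ) : ℂ) *
        (-(w 4 0 1 * (w 1 0 0 * w 3 0 2 - w 1 0 2 * w 3 0 0)) +
          w 4 0 2 * (w 1 0 0 * w 3 0 1 - w 1 0 1 * w 3 0 0))) /
      ((w 4 0 0 * b2 (w 0 0) (w 3 0) + ((Real.exp (-(3 * T)) : ℝ) : ℂ) *
        (-(w 4 0 1 * (w 0 0 0 * w 3 0 2 - w 0 0 2 * w 3 0 0)) +
          w 4 0 2 * (w 0 0 0 * w 3 0 1 - w 0 0 1 * w 3 0 0))) *
      (w 4 0 0 * b2 (w 1 0) (w 2 0) + ((Real.exp (-(3 * T)) : ℝ) : ℂ) *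
        (-(w 4 0 1 * (w 1 0 0 * w 2 0 2 - w 1 0 2 * w 2 0 0)) +
          w 4 0 2 * (w 1 0 0 * w 2 0 1 - w 1 0 1 * w 2 0 0))))) := by
    intro T
    have e0 : conf 3 T w ((4 : Fin 5).succAbove 0) = w 0 0 := hc T 0
    have e1 : conf 3 T w ((4 : Fin 5).succAbove 1) = w 1 0 := hc T 1
    have e2 : conf 3 T w ((4 : Fin 5).succAbove 2) = w 2 0 := hc T 2
    have e3 : conf 3 T w ((4 : Fin 5).succAbove 3) = w 3 0 := hc T 3
    unfold DD VV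
    rw [e0, e1, e2, e3, hc4, dt_moved, dt_moved, dt_moved, dt_moved]
    have hx : (Real.exp (2 * T) : ℂ) ≠ 0 := Complex.ofReal_ne_zero.2 (Real.exp_ne_zero _)
    congr 1
    rw [mul_mul_mul_comm, mul_mul_mul_comm (Real.exp (2 * T) : ℂ) _ (Real.exp (2 * T) : ℂ) _,
      mul_div_mul_left _ _ (mul_ne_zero hx hx)]
  have hlim := ratio_lim (w 4 0 0 * b2 (w 0 0) (w 2 0)) (w 4 0 0 * b2 (w 1 0) (w 3 0))
    (w 4 0 0 * b2 (w 0 0) (w 3 0)) (w 4 0 0 * b2 (w 1 0) (w 2 0))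
    (-(w 4 0 1 * (w 0 0 0 * w 2 0 2 - w 0 0 2 * w 2 0 0)) +
          w 4 0 2 * (w 0 0 0 * w 2 0 1 - w 0 0 1 * w 2 0 0))
    (-(w 4 0 1 * (w 1 0 0 * w 3 0 2 - w 1 0 2 * w 3 0 0)) +
          w 4 0 2 * (w 1 0 0 * w 3 0 1 - w 1 0 1 * w 3 0 0))
    (-(w 4 0 1 * (w 0 0 0 * w 3 0 2 - w 0 0 2 * w 3 0 0)) +
          w 4 0 2 * (w 0 0 0 * w 3 0 1 - w 0 0 1 * w 3 0 0))
    (-(w 4 0 1 * (w 1 0 0 * w 2 0 2 - w 1 0 2 * w 2 0 0)) +
          w 4 0 2 * (w 1 0 0 * w 2 0 1 - w 1 0 1 * w 2 0 0))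
    (mul_ne_zero (h0 4) (h 0 3 (by decide))) (mul_ne_zero (h0 4) (h 1 2 (by decide)))
  have hF : F3 (fun j => w j.castSucc) = BW (w 4 0 0 * b2 (w 0 0) (w 2 0) *
      (w 4 0 0 * b2 (w 1 0) (w 3 0)) / (w 4 0 0 * b2 (w 0 0) (w 3 0) *
      (w 4 0 0 * b2 (w 1 0) (w 2 0)))) := by
    show BW (b2 (w 0 0) (w 2 0) * b2 (w 1 0) (w 3 0) / (b2 (w 0 0) (w 3 0) * b2 (w 1 0) (w 2 0))) = _
    congr 1
    rw [mul_mul_mul_comm, mul_mul_mul_comm (w 4 0 0) (b2 (w 0 0) (w 3 0)),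
      mul_div_mul_left _ _ (mul_ne_zero (h0 4) (h0 4))]
  rw [hF]
  refine ((BW_continuous.tendsto _).comp hlim).congr fun T => ?_
  exact (key T).symm

private theorem dt00 (w : Fin 5 → E 1) (T : ℝ) (j k : Fin 5) (hj : j ≠ 0) (hk : k ≠ 0) :
    dt (conf 0 T w 0) (conf 0 T w j) (conf 0 T w k) = (Real.exp T : ℂ) *
      ((w k 0 0 * b2 (w 0 0) (w j 0) - w j 0 0 * b2 (w 0 0) (w k 0)) +
        (Real.exp (-(3 * T)) : ℝ) * (w 0 0 0 * b2 (w j 0) (w k 0))) := by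
  have hj' : ¬ ((j : ℕ) ≤ 0) := fun h => hj (by ext; simpa using h)
  have hk' : ¬ ((k : ℕ) ≤ 0) := fun h => hk (by ext; simpa using h)
  have e1 : (Real.exp (-T) : ℂ) * (Real.exp (-T) : ℂ)
      = (Real.exp T : ℂ) * (Real.exp (-(3 * T)) : ℂ) := by
    rw [← Complex.ofReal_mul, ← Complex.ofReal_mul, ← Real.exp_add, ← Real.exp_add]
    congr 2
    ring
  have e2 : (Real.exp (2 * T) : ℂ) * (Real.exp (-T) : ℂ) = (Real.exp T : ℂ) := by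
    rw [← Complex.ofReal_mul, ← Real.exp_add]
    congr 2
    ring
  simp only [conf, al, de, dt, b2, Matrix.cons_val_zero, Matrix.cons_val_one, Matrix.cons_val,
    Fin.val_zero, le_refl, if_true, if_neg hj', if_neg hk', Complex.ofReal_one, one_mul]
  linear_combination (w 0 0 0 * (w j 0 1 * w k 0 2 - w j 0 2 * w k 0 1)) * e1
    + (-(w 0 0 1) * (w j 0 0 * w k 0 2 - w j 0 2 * w k 0 0)
      + w 0 0 2 * (w j 0 0 * w k 0 1 - w j 0 1 * w k 0 0)) * e2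

private theorem cancel00 (e a b c d : ℂ) (he : e ≠ 0) :
    e * a * (e * b) / (e * c * (e * d)) = a * b / (c * d) := by
  rw [mul_mul_mul_comm, mul_mul_mul_comm e c e d, mul_div_mul_left _ _ (mul_ne_zero he he)]

/-- Proof: `v_0 = w_0`, `v_j = a_T w_j` for `j >= 1`:
`dt v_0 v_j v_k = exp T (w_k^0 b2(w_0, w_j) - w_j^0 b2(w_0, w_k) + exp (-3 T) w_0^0 b2(w_j, w_k))
= exp T (w_j^0 w_k^0 (z_j - z_k) + ..)` with `z_j = zz 0 w j`; the `w_j^0` and `exp T` cancel in the cross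
ratio. The limit `x = (z_1 - z_3)(z_2 - z_4) / ((z_1 - z_4)(z_2 - z_3))` is not `0` and not `1`
(`(z_1 - z_3)(z_2 - z_4) - (z_1 - z_4)(z_2 - z_3) = (z_1 - z_2)(z_3 - z_4)`). -/
theorem lim00 (w : Fin 5 → E 1) (h0 : ∀ j : Fin 5, w j 0 0 ≠ 0)
    (hz : ∀ j k : Fin 5, j ≠ 0 → k ≠ 0 → j ≠ k → zz 0 w j ≠ zz 0 w k) :
    Tendsto (fun T : ℝ => DD (conf 0 T w) 0) atTop (𝓝 (f0 (zz 0 w))) := by
  have hA : ∀ j k : Fin 5, w k 0 0 * b2 (w 0 0) (w j 0) - w j 0 0 * b2 (w 0 0) (w k 0)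
      = w j 0 0 * w k 0 0 * (zz 0 w j - zz 0 w k) := by
    intro j k
    have h1 := h0 j
    have h2 := h0 k
    unfold zz
    field_simp
  have hne : ∀ j k : Fin 5, j ≠ 0 → k ≠ 0 → j ≠ k →
      w k 0 0 * b2 (w 0 0) (w j 0) - w j 0 0 * b2 (w 0 0) (w k 0) ≠ 0 := by
    intro j k hj hk hjk
    rw [hA]
    exact mul_ne_zero (mul_ne_zero (h0 j) (h0 k)) (sub_ne_zero.mpr (hz j k hj hk hjk))
  have h := ratio_lim (w 3 0 0 * b2 (w 0 0) (w 1 0) - w 1 0 0 * b2 (w 0 0) (w 3 0))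
    (w 4 0 0 * b2 (w 0 0) (w 2 0) - w 2 0 0 * b2 (w 0 0) (w 4 0))
    (w 4 0 0 * b2 (w 0 0) (w 1 0) - w 1 0 0 * b2 (w 0 0) (w 4 0))
    (w 3 0 0 * b2 (w 0 0) (w 2 0) - w 2 0 0 * b2 (w 0 0) (w 3 0))
    (w 0 0 0 * b2 (w 1 0) (w 3 0)) (w 0 0 0 * b2 (w 2 0) (w 4 0))
    (w 0 0 0 * b2 (w 1 0) (w 4 0)) (w 0 0 0 * b2 (w 2 0) (w 3 0))
    (hne 1 4 (by decide) (by decide) (by decide)) (hne 2 3 (by decide) (by decide) (by decide))
  have hlim : (w 3 0 0 * b2 (w 0 0) (w 1 0) - w 1 0 0 * b2 (w 0 0) (w 3 0)) *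
      (w 4 0 0 * b2 (w 0 0) (w 2 0) - w 2 0 0 * b2 (w 0 0) (w 4 0)) /
      ((w 4 0 0 * b2 (w 0 0) (w 1 0) - w 1 0 0 * b2 (w 0 0) (w 4 0)) *
        (w 3 0 0 * b2 (w 0 0) (w 2 0) - w 2 0 0 * b2 (w 0 0) (w 3 0)))
      = (zz 0 w 1 - zz 0 w 3) * (zz 0 w 2 - zz 0 w 4)
        / ((zz 0 w 1 - zz 0 w 4) * (zz 0 w 2 - zz 0 w 3)) := by
    rw [hA, hA, hA, hA]
    have h1 := h0 1
    have h2 := h0 2
    have h3 := h0 3
    have h4 := h0 4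
    have h5 := sub_ne_zero.mpr (hz 1 4 (by decide) (by decide) (by decide))
    have h6 := sub_ne_zero.mpr (hz 2 3 (by decide) (by decide) (by decide))
    field_simp
  rw [hlim] at h
  have h' := (BW_continuous.tendsto _).comp h
  refine h'.congr' (Eventually.of_forall fun T => ?_)
  have hE : (Real.exp T : ℂ) ≠ 0 := by
    rw [Complex.ofReal_ne_zero]
    exact (Real.exp_pos T).ne'
  have s0 : (0 : Fin 5).succAbove (0 : Fin 4) = 1 := by decide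
  have s1 : (0 : Fin 5).succAbove (1 : Fin 4) = 2 := by decide
  have s2 : (0 : Fin 5).succAbove (2 : Fin 4) = 3 := by decide
  have s3 : (0 : Fin 5).succAbove (3 : Fin 4) = 4 := by decide
  simp only [Function.comp_apply, DD, VV, s0, s1, s2, s3]
  rw [dt00 w T 1 3 (by decide) (by decide), dt00 w T 2 4 (by decide) (by decide),
    dt00 w T 1 4 (by decide) (by decide), dt00 w T 2 3 (by decide) (by decide)]
  rw [cancel00 _ _ _ _ _ hE]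

private lemma l10_lo (i : Fin 4) (T : ℝ) (w : Fin 5 → E 1) (j : Fin 5) (h : (j : ℕ) ≤ (i : ℕ)) :
    conf i T w j = w j 0 := by
  funext l
  fin_cases l <;> simp [conf, al, de, h]

private lemma l10_hi (i : Fin 4) (T : ℝ) (w : Fin 5 → E 1) (j : Fin 5) (h : ¬ (j : ℕ) ≤ (i : ℕ)) :
    conf i T w j = ![(Real.exp T : ℂ) ^ 2 * w j 0 0, (Real.exp T : ℂ)⁻¹ * w j 0 1,
      (Real.exp T : ℂ)⁻¹ * w j 0 2] := by
  have h1 : Real.exp (2 * T) = Real.exp T ^ 2 := by rw [← Real.exp_nat_mul]; norm_num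
  have h2 : Real.exp (-T) = (Real.exp T)⁻¹ := Real.exp_neg T
  funext l
  fin_cases l <;> simp only [conf, al, de, h, if_false, h1, h2] <;> push_cast <;> rfl

private lemma l10_dtA (a b c : Fin 3 → ℂ) {x : ℂ} (hx : x ≠ 0) :
    dt a b ![x ^ 2 * c 0, x⁻¹ * c 1, x⁻¹ * c 2]
      = x ^ 2 * (c 0 * b2 a b + (x ^ 3)⁻¹ * (a 0 * b2 b c - b 0 * b2 a c)) := by
  simp only [dt, b2, Matrix.cons_val_zero, Matrix.cons_val_one, Matrix.cons_val]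
  field_simp
  ring

private lemma l10_dtB (a c d : Fin 3 → ℂ) {x : ℂ} (hx : x ≠ 0) :
    dt a ![x ^ 2 * c 0, x⁻¹ * c 1, x⁻¹ * c 2] ![x ^ 2 * d 0, x⁻¹ * d 1, x⁻¹ * d 2]
      = x * ((d 0 * b2 a c - c 0 * b2 a d) + (x ^ 3)⁻¹ * (a 0 * b2 c d)) := by
  simp only [dt, b2, Matrix.cons_val_zero, Matrix.cons_val_one, Matrix.cons_val]
  field_simp
  ring

private lemma l10_main (a b c2 c3 c4 : Fin 3 → ℂ) (hab : b2 a b ≠ 0) (h2 : c2 0 ≠ 0) (h3 : c3 0 ≠ 0)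
    (h4 : c4 0 ≠ 0) (h23 : b2 a c2 / c2 0 ≠ b2 a c3 / c3 0) (h24 : b2 a c2 / c2 0 ≠ b2 a c4 / c4 0)
    (h34 : b2 a c3 / c3 0 ≠ b2 a c4 / c4 0) :
    Tendsto (fun T : ℝ => VV a b ![(Real.exp T : ℂ) ^ 2 * c2 0, (Real.exp T : ℂ)⁻¹ * c2 1,
        (Real.exp T : ℂ)⁻¹ * c2 2] ![(Real.exp T : ℂ) ^ 2 * c3 0, (Real.exp T : ℂ)⁻¹ * c3 1,
        (Real.exp T : ℂ)⁻¹ * c3 2] ![(Real.exp T : ℂ) ^ 2 * c4 0, (Real.exp T : ℂ)⁻¹ * c4 1,
        (Real.exp T : ℂ)⁻¹ * c4 2]) atTop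
      (𝓝 (BW ((b2 a c2 / c2 0 - b2 a c4 / c4 0) / (b2 a c2 / c2 0 - b2 a c3 / c3 0)))) := by
  have hS : c3 0 * b2 a c2 - c2 0 * b2 a c3 ≠ 0 := by
    intro h
    apply h23
    rw [div_eq_div_iff h2 h3]
    linear_combination h
  have hlim := ratio_lim (c3 0 * b2 a b) (c4 0 * b2 a c2 - c2 0 * b2 a c4) (c4 0 * b2 a b)
    (c3 0 * b2 a c2 - c2 0 * b2 a c3) (a 0 * b2 b c3 - b 0 * b2 a c3) (a 0 * b2 c2 c4)
    (a 0 * b2 b c4 - b 0 * b2 a c4) (a 0 * b2 c2 c3) (mul_ne_zero h4 hab) hS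
  have hval : c3 0 * b2 a b * (c4 0 * b2 a c2 - c2 0 * b2 a c4) /
      (c4 0 * b2 a b * (c3 0 * b2 a c2 - c2 0 * b2 a c3))
      = (b2 a c2 / c2 0 - b2 a c4 / c4 0) / (b2 a c2 / c2 0 - b2 a c3 / c3 0) := by
    have hz : b2 a c2 / c2 0 - b2 a c3 / c3 0 ≠ 0 := sub_ne_zero.2 h23
    rw [div_eq_div_iff (mul_ne_zero (mul_ne_zero h4 hab) hS) hz]
    field_simp
  rw [hval] at hlim
  have hx0 : (b2 a c2 / c2 0 - b2 a c4 / c4 0) / (b2 a c2 / c2 0 - b2 a c3 / c3 0) ≠ 0 :=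
    div_ne_zero (sub_ne_zero.2 h24) (sub_ne_zero.2 h23)
  have hx1 : (b2 a c2 / c2 0 - b2 a c4 / c4 0) / (b2 a c2 / c2 0 - b2 a c3 / c3 0) ≠ 1 := by
    intro h
    rw [div_eq_one_iff_eq (sub_ne_zero.2 h23)] at h
    exact h34 (by linear_combination h)
  refine ((BW_cont hx0 hx1).tendsto.comp hlim).congr fun T => ?_
  have hx : (Real.exp T : ℂ) ≠ 0 := by exact_mod_cast (Real.exp_pos T).ne'
  have he : ((Real.exp (-(3 * T)) : ℝ) : ℂ) = ((Real.exp T : ℂ) ^ 3)⁻¹ := by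
    rw [Real.exp_neg, show 3 * T = ((3 : ℕ) : ℝ) * T by norm_num, Real.exp_nat_mul]
    push_cast
    rfl
  rw [Function.comp_apply, he, VV, l10_dtA a b c3 hx, l10_dtA a b c4 hx, l10_dtB a c2 c4 hx,
    l10_dtB a c2 c3 hx]
  congr 1
  field_simp

/-- Proof: `v_0 = w_0, v_1 = w_1`, `v_j = a_T w_j` for `j >= 2`. `DD v 0 = BW` of
`dt v0 v1 v3 * dt v0 v2 v4 / (dt v0 v1 v4 * dt v0 v2 v3)`, where
`dt v0 v1 vj = exp (2 T) (w_j^0 b2(w_0, w_1) + exp (-3 T) (..))` and for `j, k >= 2`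
`dt v0 vj vk = exp T (w_j^0 w_k^0 (z_j - z_k) + exp (-3 T) w_0^0 b2(w_j, w_k))`. -/
theorem lim10 (w : Fin 5 → E 1) (h : ∀ j k : Fin 5, j ≠ k → b2 (w j 0) (w k 0) ≠ 0)
    (h0 : ∀ j : Fin 5, w j 0 0 ≠ 0)
    (hz : ∀ j k : Fin 5, j ≠ 0 → k ≠ 0 → j ≠ k → zz 0 w j ≠ zz 0 w k) :
    Tendsto (fun T : ℝ => DD (conf 1 T w) 0) atTop (𝓝 (f1 (zz 0 w))) := by
  have key := l10_main (w 0 0) (w 1 0) (w 2 0) (w 3 0) (w 4 0) (h 0 1 (by decide)) (h0 2) (h0 3)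
    (h0 4) (hz 2 3 (by decide) (by decide) (by decide)) (hz 2 4 (by decide) (by decide) (by decide))
    (hz 3 4 (by decide) (by decide) (by decide))
  refine key.congr fun T => ?_
  have e : DD (conf 1 T w) 0 = VV (conf 1 T w 0) (conf 1 T w 1) (conf 1 T w 2) (conf 1 T w 3)
    (conf 1 T w 4) := rfl
  rw [e, l10_lo 1 T w 0 (by decide), l10_lo 1 T w 1 (by decide), l10_hi 1 T w 2 (by decide),
    l10_hi 1 T w 3 (by decide), l10_hi 1 T w 4 (by decide)]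

/-- Proof: as `lim10`: `DD v 1 = BW` of `dt v1 v0 v3 * dt v1 v2 v4 / (dt v1 v0 v4 * dt v1 v2 v3)`. -/
theorem lim11 (w : Fin 5 → E 1) (h : ∀ j k : Fin 5, j ≠ k → b2 (w j 0) (w k 0) ≠ 0)
    (h0 : ∀ j : Fin 5, w j 0 0 ≠ 0)
    (hz : ∀ j k : Fin 5, j ≠ 1 → k ≠ 1 → j ≠ k → zz 1 w j ≠ zz 1 w k) :
    Tendsto (fun T : ℝ => DD (conf 1 T w) 1) atTop (𝓝 (f1 (zz 1 w))) := by
  have key := l10_main (w 1 0) (w 0 0) (w 2 0) (w 3 0) (w 4 0) (h 1 0 (by decide)) (h0 2) (h0 3)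
    (h0 4) (hz 2 3 (by decide) (by decide) (by decide)) (hz 2 4 (by decide) (by decide) (by decide))
    (hz 3 4 (by decide) (by decide) (by decide))
  refine key.congr fun T => ?_
  have e : DD (conf 1 T w) 1 = VV (conf 1 T w 1) (conf 1 T w 0) (conf 1 T w 2) (conf 1 T w 3)
    (conf 1 T w 4) := rfl
  rw [e, l10_lo 1 T w 0 (by decide), l10_lo 1 T w 1 (by decide), l10_hi 1 T w 2 (by decide),
    l10_hi 1 T w 3 (by decide), l10_hi 1 T w 4 (by decide)]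

/-- Proof: `ae_b2`, `ae_coord`, and `ae_ne` for `X w = w_k^0 b2(w_p, w_j) - w_j^0 b2(w_p, w_k)`
(`p, j, k` distinct; `a = p`, `b = j`, `e = k`), which is `w_j^0 w_k^0 (z_j - z_k)`. -/
theorem ae_zz : ∀ᵐ w : Fin 5 → E 1,
    (∀ j k : Fin 5, j ≠ k → b2 (w j 0) (w k 0) ≠ 0) ∧ (∀ j : Fin 5, w j 0 0 ≠ 0) ∧
    (∀ p j k : Fin 5, j ≠ p → k ≠ p → j ≠ k → zz p w j ≠ zz p w k) := by
  have h1 : ∀ᵐ w : Fin 5 → E 1, ∀ j k : Fin 5, j ≠ k → b2 (w j 0) (w k 0) ≠ 0 := by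
    rw [ae_all_iff]; intro j
    rw [ae_all_iff]; intro k
    by_cases hjk : j = k
    · exact Filter.Eventually.of_forall fun w h => absurd hjk h
    · filter_upwards [ae_b2 j k hjk] with w hw _ using hw
  have h2 : ∀ᵐ w : Fin 5 → E 1, ∀ j : Fin 5, w j 0 0 ≠ 0 := by
    rw [ae_all_iff]; intro j
    exact ae_coord j 0
  have h3 : ∀ᵐ w : Fin 5 → E 1, ∀ p j k : Fin 5, j ≠ p → k ≠ p → j ≠ k →
      w k 0 0 * b2 (w p 0) (w j 0) - w j 0 0 * b2 (w p 0) (w k 0) ≠ 0 := by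
    rw [ae_all_iff]; intro p
    rw [ae_all_iff]; intro j
    rw [ae_all_iff]; intro k
    by_cases hjp : j = p
    · exact Filter.Eventually.of_forall fun w h => absurd hjp h
    by_cases hkp : k = p
    · exact Filter.Eventually.of_forall fun w _ h => absurd hkp h
    by_cases hjk : j = k
    · exact Filter.Eventually.of_forall fun w _ _ h => absurd hjk h
    have hX : Measurable (fun w : Fin 5 → E 1 =>
        w k 0 0 * b2 (w p 0) (w j 0) - w j 0 0 * b2 (w p 0) (w k 0)) := by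
      unfold b2
      fun_prop
    filter_upwards [ae_ne p j k (Ne.symm hjp) (Ne.symm hkp) hjk _ hX (by
      intro m z
      have e1 : ∀ z : ℂ, upd k 0 z m p = m p := fun z =>
        Function.update_of_ne (Ne.symm hkp) _ _
      have e2 : ∀ z : ℂ, upd k 0 z m j = m j := fun z => Function.update_of_ne hjk _ _
      have e3 : ∀ z : ℂ, upd k 0 z m k 0 = Function.update (m k 0) 0 z := fun z => by
        unfold upd
        rw [Function.update_self]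
      simp only [e1, e2, e3, b2, Function.update_self]
      rw [Function.update_of_ne (show (2 : Fin 3) ≠ 0 by decide),
        Function.update_of_ne (show (1 : Fin 3) ≠ 0 by decide),
        Function.update_of_ne (show (2 : Fin 3) ≠ 0 by decide),
        Function.update_of_ne (show (1 : Fin 3) ≠ 0 by decide)]
      ring)] with w hw _ _ _ using hw
  filter_upwards [h1, h2, h3] with w w1 w2 w3
  refine ⟨w1, w2, fun p j k hj hk hjk e => w3 p j k hj hk hjk ?_⟩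
  unfold zz at e
  rw [div_eq_div_iff (w2 j) (w2 k)] at e
  linear_combination e

theorem lim_RR (i : Fin 4) : ∀ᵐ w : Fin 5 → E 1,
    Tendsto (fun T : ℝ => RR i (conf i T w)) atTop (𝓝 (LR i w)) := by
  filter_upwards [ae_zz] with w hw
  obtain ⟨hb, h0, hz⟩ := hw
  fin_cases i
  · simpa [RR, LR] using lim00 w h0 (hz 0)
  · simpa [RR, LR] using (lim10 w hb h0 (hz 0)).sub (lim11 w hb h0 (hz 1))
  · simp [RR, LR]
  · simpa [RR, LR] using (lim34 w hb h0).const_mul 2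

end Pool.Agent.Helper95.EXG
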