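import Pool.Agent.Helper95.EXG.G3

/-! Project EX, module Y, piece EXY-6: domination of the law of `x_i m_i`. -/

set_option autoImplicit false

namespace Pool.Agent.Helper95.EXG

open Pool.Agent.Helper87.EX MeasureTheory Complex Filter
open scoped Topology ENNReal

private theorem row_le (g : Matrix (Fin 3) (Fin 3) ℂ) (v : Fin 3 → ℂ) (i : Fin 3) :
    Complex.normSq (g.mulVec v i) ≤ (∑ j, Complex.normSq (g i j)) * ∑ j, Complex.normSq (v j) := by
  have h1 : ‖g.mulVec v i‖ ≤ ∑ j, ‖g i j‖ * ‖v j‖ := by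
    rw [Matrix.mulVec, dotProduct]
    refine (norm_sum_le _ _).trans (le_of_eq ?_)
    exact Finset.sum_congr rfl (fun j _ => norm_mul _ _)
  have h2 : (∑ j, ‖g i j‖ * ‖v j‖) ^ 2 ≤ (∑ j, ‖g i j‖ ^ 2) * ∑ j, ‖v j‖ ^ 2 :=
    Finset.sum_mul_sq_le_sq_mul_sq _ _ _
  have h3 : ‖g.mulVec v i‖ ^ 2 ≤ (∑ j, ‖g i j‖ * ‖v j‖) ^ 2 :=
    pow_le_pow_left₀ (norm_nonneg _) h1 2
  simp only [Complex.normSq_eq_norm_sq]
  exact h3.trans h2

private theorem q_act_le' (g : Matrix (Fin 3) (Fin 3) ℂ) (m : E 1) :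
    q (act g m) ≤ (∑ i, ∑ j, Complex.normSq (g i j)) * q m := by
  unfold q act
  rw [Finset.mul_sum]
  refine Finset.sum_le_sum (fun k _ => ?_)
  rw [Finset.sum_mul]
  exact Finset.sum_le_sum (fun i _ => row_le g (m k) i)

private theorem act_act_inv (x : G3) (m : E 1) :
    act (x : Matrix (Fin 3) (Fin 3) ℂ) (act ((x⁻¹ : G3) : Matrix (Fin 3) (Fin 3) ℂ) m) = m := by
  funext j
  unfold act
  rw [Matrix.mulVec_mulVec, ← Matrix.SpecialLinearGroup.coe_mul, mul_inv_cancel,
    Matrix.SpecialLinearGroup.coe_one, Matrix.one_mulVec]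

/-- `q (g m) <= K q m` with `K = ‖g‖_F^2`-like constant (Cauchy-Schwarz in every row), hence (for
`g = x`) `q (x^(-1) m) >= K^(-1) q m`. -/
theorem q_act_le (x : G3) : ∃ K : ℝ, 0 < K ∧ ∀ m : E 1,
    q m ≤ K * q (act ((x⁻¹ : G3) : Matrix (Fin 3) (Fin 3) ℂ) m) := by
  refine ⟨(∑ i, ∑ j, Complex.normSq ((x : Matrix (Fin 3) (Fin 3) ℂ) i j)) + 1, ?_, fun m => ?_⟩
  · have : 0 ≤ ∑ i, ∑ j, Complex.normSq ((x : Matrix (Fin 3) (Fin 3) ℂ) i j) :=
      Finset.sum_nonneg (fun i _ => Finset.sum_nonneg (fun j _ => Complex.normSq_nonneg _))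
    linarith
  · have h := q_act_le' (x : Matrix (Fin 3) (Fin 3) ℂ)
      (act ((x⁻¹ : G3) : Matrix (Fin 3) (Fin 3) ℂ) m)
    rw [act_act_inv] at h
    have h0 : 0 ≤ q (act ((x⁻¹ : G3) : Matrix (Fin 3) (Fin 3) ℂ) m) :=
      Finset.sum_nonneg (fun i _ => Finset.sum_nonneg (fun j _ => Complex.normSq_nonneg _))
    nlinarith

private theorem g6_act_inv (x : G3) (m : E 1) :
    act ((x⁻¹ : G3) : Matrix (Fin 3) (Fin 3) ℂ) (act (x : Matrix (Fin 3) (Fin 3) ℂ) m) = m := by
  funext j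
  have h : ((x⁻¹ : G3) : Matrix (Fin 3) (Fin 3) ℂ) * (x : Matrix (Fin 3) (Fin 3) ℂ) = 1 := by
    rw [← Matrix.SpecialLinearGroup.coe_mul, inv_mul_cancel, Matrix.SpecialLinearGroup.coe_one]
  simp only [act, Matrix.mulVec_mulVec, h, Matrix.one_mulVec]

private theorem g6_q_nonneg (m : E 1) : 0 ≤ q m :=
  Finset.sum_nonneg fun _ _ => Finset.sum_nonneg fun _ _ => Complex.normSq_nonneg _

private theorem g6_q_meas : Measurable (fun m : E 1 => q m) := by
  unfold q
  refine Finset.measurable_sum _ fun j _ => Finset.measurable_sum _ fun i _ => ?_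
  exact Complex.continuous_normSq.measurable.comp
    ((measurable_pi_apply i).comp (measurable_pi_apply j))

private theorem g6_act_meas (g : Matrix (Fin 3) (Fin 3) ℂ) : Measurable (fun m : E 1 => act g m) := by
  refine measurable_pi_iff.2 fun j => measurable_pi_iff.2 fun i => ?_
  simp only [act, Matrix.mulVec, dotProduct]
  refine Finset.measurable_sum _ fun l _ => ?_
  have h1 : Measurable (fun m : E 1 => m j l) :=
    (measurable_pi_apply (X := fun _ : Fin 3 => ℂ) l).comp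
      (measurable_pi_apply (X := fun _ : Fin 1 => Fin 3 → ℂ) j)
  exact h1.const_mul _

private theorem g6_xact_mp {k : ℕ} (x : Fin k → G3) :
    MeasurePreserving (xact x) (volume : Measure (Fin k → E 1)) volume :=
  volume_preserving_pi (fun i => act_mp (n := 1) (x i))

/-- Domination: the law of `(x_i m_i)`, `m_i` independent standard Gaussian, is at most `C * mu c k`.
Proof: `PP k` has the density `∏ rho (m i)` (`PP_eq`, `mu_density`), `m ↦ xact x m` preserves the Lebesgue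
measure (`act_mp`, `volume_preserving_pi`), so the left side is
`∫⁻ f (m) * (const * exp (- ∑ q (x_i^(-1) m_i))) dm` and `q_act_le` gives
`exp (- ∑ q (x_i^(-1) m_i)) <= exp (-c ∑ q (m_i))` with `c = min_i 1 / K_i` (`k = 0`: `c = 1`);
`lintegral_mu`. -/
theorem dom {k : ℕ} (x : Fin k → G3) : ∃ C : ℝ≥0∞, C ≠ ∞ ∧ ∃ c : ℝ, 0 < c ∧
    ∀ f : (Fin k → E 1) → ℝ≥0∞, Measurable f →
      ∫⁻ m, f (xact x m) ∂(PP k) ≤ C * ∫⁻ m, f m ∂(mu c k) := by
  choose K hK0 hK using fun i => q_act_le (x i)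
  set S : ℝ := 1 + ∑ i, K i with hS
  have hS0 : 0 < S := by
    have : 0 ≤ ∑ i, K i := Finset.sum_nonneg fun i _ => (hK0 i).le
    linarith
  have hKS : ∀ i, K i ≤ S := by
    intro i
    have := Finset.single_le_sum (f := K) (fun i _ => (hK0 i).le) (Finset.mem_univ i)
    linarith
  set c : ℝ := 1 / S with hc
  have hc0 : 0 < c := by positivity
  have hq : ∀ i (m : E 1), c * q m ≤
      q (act (((x i)⁻¹ : G3) : Matrix (Fin 3) (Fin 3) ℂ) m) := by
    intro i m
    have h1 := hK i m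
    have h2 : K i * q (act (((x i)⁻¹ : G3) : Matrix (Fin 3) (Fin 3) ℂ) m) ≤
        S * q (act (((x i)⁻¹ : G3) : Matrix (Fin 3) (Fin 3) ℂ) m) :=
      mul_le_mul_of_nonneg_right (hKS i) (g6_q_nonneg _)
    rw [hc, one_div, inv_mul_le_iff₀ hS0]
    linarith
  refine ⟨ENNReal.ofReal ((1 / c) ^ (3 * k)), ENNReal.ofReal_ne_top, c, hc0, fun f hf => ?_⟩
  have hfx : Measurable (fun m => f (xact x m)) := hf.comp (g6_xact_mp x).measurable
  rw [PP_eq, lintegral_mu one_pos k _ hfx, lintegral_mu hc0 k f hf]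
  have hI : ∫⁻ m : Fin k → E 1, f (xact x m) * ENNReal.ofReal (Real.exp (-1 * ∑ i, q (m i)))
      = ∫⁻ y : Fin k → E 1, f y * ENNReal.ofReal (Real.exp (-1 * ∑ i,
          q (act (((x i)⁻¹ : G3) : Matrix (Fin 3) (Fin 3) ℂ) (y i)))) := by
    have hm : Measurable (fun y : Fin k → E 1 => f y * ENNReal.ofReal (Real.exp (-1 * ∑ i,
          q (act (((x i)⁻¹ : G3) : Matrix (Fin 3) (Fin 3) ℂ) (y i))))) := by
      refine hf.mul (ENNReal.measurable_ofReal.comp (Real.measurable_exp.comp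
        ((Finset.measurable_sum _ fun i _ => ?_).const_mul _)))
      exact g6_q_meas.comp ((g6_act_meas _).comp (measurable_pi_apply i))
    rw [← (g6_xact_mp x).lintegral_comp hm]
    refine lintegral_congr fun m => ?_
    simp only [xact, g6_act_inv]
  rw [hI, ← mul_assoc, ← ENNReal.ofReal_mul (by positivity)]
  have hcc : (1 / c) ^ (3 * k) * (c / Real.pi) ^ (3 * k) = (1 / Real.pi) ^ (3 * k) := by
    rw [← mul_pow]
    congr 1
    field_simp
  rw [hcc]
  refine mul_le_mul_right ?_ _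
  refine lintegral_mono fun y => ?_
  refine mul_le_mul_right (ENNReal.ofReal_le_ofReal (Real.exp_le_exp.2 ?_)) _
  have : c * ∑ i, q (y i) ≤ ∑ i, q (act (((x i)⁻¹ : G3) : Matrix (Fin 3) (Fin 3) ℂ) (y i)) := by
    rw [Finset.mul_sum]
    exact Finset.sum_le_sum fun i _ => hq i (y i)
  linarith

/-- `xact x` is measurable (linear, hence continuous). -/
theorem xact_meas {k : ℕ} (x : Fin k → G3) : Measurable (xact x) := by
  refine Continuous.measurable ?_
  refine continuous_pi (fun i => continuous_pi (fun j => ?_))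
  unfold xact act
  exact Continuous.matrix_mulVec continuous_const ((continuous_apply j).comp (continuous_apply i))

/-- Almost sure statements are transported. Proof: `m ↦ xact x m` preserves the Lebesgue measure
(or `dom` applied to the indicator of a measurable null set containing the exceptional set). -/
theorem ae_xact {k : ℕ} (x : Fin k → G3) {p : (Fin k → E 1) → Prop}
    (h : ∀ᵐ m : Fin k → E 1, p m) : ∀ᵐ m ∂(PP k), p (xact x m) := by
  rw [PP_eq, ae_mu_iff one_pos]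
  exact (g6_xact_mp x).quasiMeasurePreserving.ae h

end Pool.Agent.Helper95.EXG
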