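import Pool.Agent.Helper95.EXG.G5
import Pool.Agent.Helper95.EXG.G6

/-! Project EX, module Y, piece EXY-11: the odd expectations vanish. -/

set_option autoImplicit false

namespace Pool.Agent.Helper95.EXG

open Pool.Agent.Helper87.EX MeasureTheory Complex Filter
open scoped Topology ENNReal

private lemma coord_meas (p : Fin 5) (l : Fin 3) :
    Measurable (fun w : Fin 5 → E 1 => w p 0 l) :=
  (measurable_pi_apply l).comp ((measurable_pi_apply (0 : Fin 1)).comp (measurable_pi_apply p))

/-- `b2` is measurable in `w`, so is `zz p`. -/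
theorem zz_meas (p : Fin 5) : Measurable (zz p) := by
  rw [measurable_pi_iff]
  intro j
  unfold zz b2
  exact (((coord_meas p 1).mul (coord_meas j 2)).sub ((coord_meas p 2).mul (coord_meas j 1))).div
    (coord_meas j 0)

private lemma emb_act_upd (s : Matrix.SpecialLinearGroup (Fin 2) ℂ) (m : E 1) (z : ℂ) :
    act (emb s : Matrix (Fin 3) (Fin 3) ℂ) (n := 1) (fun _ => Function.update (m 0) 0 z) 0 =
      Function.update (act (emb s : Matrix (Fin 3) (Fin 3) ℂ) m 0) 0 z := by
  funext l
  fin_cases l <;>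
    simp [act, emb, Matrix.mulVec, dotProduct, Fin.sum_univ_three]

/-- Effect of the replacement of the first coordinate of the vector `c` (the block elements `emb (s j)` fix
the first coordinate and act on the two others, and `b2` uses only the two others). Proof: unfold;
`xact x (upd c 0 z m) j 0` has the coordinates `1, 2` of `xact x m j 0`, and coordinate `0` equal to
`m j 0 0` for `j ≠ c`, to `z` for `j = c`. -/
theorem zz_upd (s : Fin 5 → Matrix.SpecialLinearGroup (Fin 2) ℂ) (p c : Fin 5) (z : ℂ)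
    (m : Fin 5 → E 1) :
    zz p (xact (fun j => emb (s j)) (upd c 0 z m)) =
      Function.update (zz p (xact (fun j => emb (s j)) m)) c
        (b2 (xact (fun j => emb (s j)) m p 0) (xact (fun j => emb (s j)) m c 0) / z) := by
  have hne : ∀ j : Fin 5, j ≠ c → xact (fun j => emb (s j)) (upd c 0 z m) j =
      xact (fun j => emb (s j)) m j := by
    intro j hj
    unfold xact upd
    rw [Function.update_of_ne hj]
  have heq : xact (fun j => emb (s j)) (upd c 0 z m) c 0 =
      Function.update (xact (fun j => emb (s j)) m c 0) 0 z := by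
    unfold xact upd
    rw [Function.update_self]
    exact emb_act_upd (s c) (m c) z
  have hall : ∀ j : Fin 5, ∀ l : Fin 3, l ≠ 0 →
      xact (fun j => emb (s j)) (upd c 0 z m) j 0 l = xact (fun j => emb (s j)) m j 0 l := by
    intro j l hl
    by_cases hj : j = c
    · subst hj
      rw [heq, Function.update_of_ne hl]
    · rw [hne j hj]
  funext j
  by_cases hj : j = c
  · subst hj
    rw [Function.update_self]
    unfold zz b2
    rw [hall p 1 (by decide), hall p 2 (by decide), hall j 1 (by decide), hall j 2 (by decide), heq,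
      Function.update_self]
  · rw [Function.update_of_ne hj]
    unfold zz b2
    rw [hall p 1 (by decide), hall p 2 (by decide), hne j hj]

/-- conjugation of one coordinate -/
private noncomputable def cjc (c : Fin 5) (z : Fin 5 → ℂ) : Fin 5 → ℂ :=
  Function.update z c ((starRingEnd ℂ) (z c))

private lemma cjc_meas (c : Fin 5) : Measurable (cjc c) := by
  unfold cjc
  rw [measurable_pi_iff]
  intro j
  by_cases hj : j = c
  · subst hj
    simp only [Function.update_self]
    exact (Complex.continuous_conj.measurable).comp (measurable_pi_apply _)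
  · simp only [Function.update_of_ne hj]
    exact measurable_pi_apply _

/-- Proof: `PP_eq`; `resample_int` with the coordinate `(c, 0)` on both sides; inside use `zz_upd`,
`Function.update_idem`, `Function.update_self`: the inner integrals are
`∫ g (update Z c (b / z))` and `∫ g (update Z c (conj (b / z)))`, equal by `nu_flip`. -/
theorem flip_one (s : Fin 5 → Matrix.SpecialLinearGroup (Fin 2) ℂ) (p c : Fin 5)
    (g : (Fin 5 → ℂ) → ℝ) (hg : Measurable g) (hb : ∃ C : ℝ, ∀ z, |g z| ≤ C) :
    ∫ m, g (zz p (xact (fun j => emb (s j)) m)) ∂(PP 5) =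
      ∫ m, g (Function.update (zz p (xact (fun j => emb (s j)) m)) c
        ((starRingEnd ℂ) (zz p (xact (fun j => emb (s j)) m) c))) ∂(PP 5) := by
  have hZ : Measurable (fun m : Fin 5 → E 1 => zz p (xact (fun j => emb (s j)) m)) :=
    (zz_meas p).comp (xact_meas _)
  obtain ⟨C, hC⟩ := hb
  have h1 := resample_int one_pos c 0 (fun m => g (zz p (xact (fun j => emb (s j)) m)))
    (hg.comp hZ) ⟨C, fun m => hC _⟩
  have h2 := resample_int one_pos c 0
    (fun m => g (cjc c (zz p (xact (fun j => emb (s j)) m))))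
    (hg.comp ((cjc_meas c).comp hZ)) ⟨C, fun m => hC _⟩
  unfold cjc at h2
  rw [PP_eq, h1, h2]
  refine integral_congr_ae (Filter.Eventually.of_forall fun m => ?_)
  simp only [zz_upd, Function.update_idem, Function.update_self]
  exact nu_flip one_pos _
    (fun y => g (Function.update (zz p (xact (fun j => emb (s j)) m)) c y))
    (hg.comp (measurable_update _))

/-- Proof: apply `flip_one` for `c = 0, 1, 2, 3, 4` successively to
`f`, `z ↦ f (update z 0 (conj (z 0)))`, ..; after five steps the argument is `fun j => conj (z j)`: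
so the integral equals its negative. -/
theorem odd_zero (s : Fin 5 → Matrix.SpecialLinearGroup (Fin 2) ℂ) (p : Fin 5)
    (f : (Fin 5 → ℂ) → ℝ) (hf : Measurable f) (hb : ∃ C : ℝ, ∀ z, |f z| ≤ C)
    (hodd : ∀ z : Fin 5 → ℂ, f (fun j => (starRingEnd ℂ) (z j)) = -f z) :
    ∫ m, f (zz p (xact (fun j => emb (s j)) m)) ∂(PP 5) = 0 := by
  obtain ⟨C, hC⟩ := hb
  have h0 := flip_one s p 0 f hf ⟨C, hC⟩
  have h1 := flip_one s p 1 (fun z => f (cjc 0 z)) (hf.comp (cjc_meas 0)) ⟨C, fun z => hC _⟩
  have h2 := flip_one s p 2 (fun z => f (cjc 0 (cjc 1 z)))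
    (hf.comp ((cjc_meas 0).comp (cjc_meas 1))) ⟨C, fun z => hC _⟩
  have h3 := flip_one s p 3 (fun z => f (cjc 0 (cjc 1 (cjc 2 z))))
    (hf.comp ((cjc_meas 0).comp ((cjc_meas 1).comp (cjc_meas 2)))) ⟨C, fun z => hC _⟩
  have h4 := flip_one s p 4 (fun z => f (cjc 0 (cjc 1 (cjc 2 (cjc 3 z)))))
    (hf.comp ((cjc_meas 0).comp ((cjc_meas 1).comp ((cjc_meas 2).comp (cjc_meas 3)))))
    ⟨C, fun z => hC _⟩
  have h5 := h0.trans (h1.trans (h2.trans (h3.trans h4)))
  have h6 : ∀ z : Fin 5 → ℂ, cjc 0 (cjc 1 (cjc 2 (cjc 3 (cjc 4 z)))) =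
      fun j => (starRingEnd ℂ) (z j) := by
    intro z
    funext j
    fin_cases j <;> simp [cjc, Function.update]
  have h7 : ∀ z : Fin 5 → ℂ, f (cjc 0 (cjc 1 (cjc 2 (cjc 3 (cjc 4 z))))) = -f z := by
    intro z
    rw [h6, hodd]
  have h8 : ∫ m, f (zz p (xact (fun j => emb (s j)) m)) ∂(PP 5) =
      ∫ m, f (cjc 0 (cjc 1 (cjc 2 (cjc 3 (cjc 4 (zz p (xact (fun j => emb (s j)) m))))))) ∂(PP 5) :=
    h5
  simp only [h7] at h8
  rw [integral_neg] at h8
  linarith

/-- `f0` and `f1` are measurable, bounded and odd (`BW_meas`, `BW_bdd`, `BW_conj`). -/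
theorem f0_facts : Measurable f0 ∧ (∃ C : ℝ, ∀ z, |f0 z| ≤ C) ∧
    ∀ z : Fin 5 → ℂ, f0 (fun j => (starRingEnd ℂ) (z j)) = -f0 z := by
  refine ⟨?_, ?_, ?_⟩
  · unfold f0
    have h : ∀ j : Fin 5, Measurable (fun z : Fin 5 → ℂ => z j) := fun j => measurable_pi_apply j
    exact BW_meas.comp ((((h 1).sub (h 3)).mul ((h 2).sub (h 4))).div
      (((h 1).sub (h 4)).mul ((h 2).sub (h 3))))
  · obtain ⟨C, _, hC⟩ := BW_bdd
    exact ⟨C, fun z => hC _⟩
  · intro z
    unfold f0
    rw [← BW_conj]
    simp only [map_div₀, map_mul, map_sub]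

theorem f1_facts : Measurable f1 ∧ (∃ C : ℝ, ∀ z, |f1 z| ≤ C) ∧
    ∀ z : Fin 5 → ℂ, f1 (fun j => (starRingEnd ℂ) (z j)) = -f1 z := by
  refine ⟨?_, ?_, ?_⟩
  · unfold f1
    have h : ∀ j : Fin 5, Measurable (fun z : Fin 5 → ℂ => z j) := fun j => measurable_pi_apply j
    exact BW_meas.comp (((h 2).sub (h 4)).div ((h 2).sub (h 3)))
  · obtain ⟨C, _, hC⟩ := BW_bdd
    exact ⟨C, fun z => hC _⟩
  · intro z
    unfold f1
    rw [← BW_conj]
    simp only [map_div₀, map_sub]

end Pool.Agent.Helper95.EXG
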