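import Pool.Agent.Helper95.EXG.G0

/-! Project EX, module Y, piece EXY-9: the combination of the rates by the conic relation. -/

set_option autoImplicit false

namespace Pool.Agent.Helper95.EXG

open Pool.Agent.Helper87.EX MeasureTheory Complex Filter
open scoped Topology ENNReal

/-- integer version of `rt` -/
private def rtZ (i : Fin 4) (a b e : Fin 5) : ℤ :=
  (if (e : ℕ) ≤ (i : ℕ) then 0 else 2) - (if (a : ℕ) ≤ (i : ℕ) then 0 else 1)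
    - (if (b : ℕ) ≤ (i : ℕ) then 0 else 1)

private theorem rt_eq (i : Fin 4) (a b e : Fin 5) : rt i a b e = (rtZ i a b e : ℝ) := by
  unfold rt rtZ
  push_cast
  rfl

private def sZ (i : Fin 4) (p : Fin 5) : ℤ :=
  ∑ r : Fin 4, rtZ i (p.succAbove (r.succAbove 0)) (p.succAbove (r.succAbove 1))
    (p.succAbove (r.succAbove 2))

private theorem RS_sZ (i : Fin 4) (v : Fin 5 → Fin 3 → ℂ) :
    RS i v = -(1 / 3) * ∑ p : Fin 5, (-1 : ℝ) ^ (p : ℕ) * DD v p * (sZ i p : ℝ) := by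
  unfold RS sZ
  congr 1
  refine Finset.sum_congr rfl fun p _ => ?_
  push_cast
  rw [Finset.mul_sum]
  refine Finset.sum_congr rfl fun r _ => ?_
  rw [rt_eq]

/-- Proof: expand the sums over `Fin 5` and `Fin 4` (`Fin.sum_univ_succ`), evaluate `succAbove` and `rt`
(`fin_cases i`, `simp`/`decide`); both sides are linear in `DD v 0, .., DD v 4`, and the difference is a
multiple of `conic v hv`. With `E_p = (-1)^p DD v p`, `RS i v` is `-2 (E0+E1+E2+E3)`, `-2 (E0+..+E4)`,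
`-(E0+E1) - 2 (E2+E3+E4)`, `-(E1+E2+E3+E4)` for `i = 3, 2, 1, 0`. -/
theorem RS_eq (i : Fin 4) (v : Fin 5 → Fin 3 → ℂ) (hv : Gen v) : RS i v = RR i v := by
  have hc := conic v hv
  rw [Fin.sum_univ_five] at hc
  have n2 : ((2 : Fin 5) : ℕ) = 2 := rfl
  have n3 : ((3 : Fin 5) : ℕ) = 3 := rfl
  have n4 : ((4 : Fin 5) : ℕ) = 4 := rfl
  rw [RS_sZ, Fin.sum_univ_five]
  rw [n2, n3, n4, Fin.val_zero, Fin.val_one] at hc ⊢
  fin_cases i
  · have e0 : sZ 0 0 = 0 := by decide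
    have e1 : sZ 0 1 = 3 := by decide
    have e2 : sZ 0 2 = 3 := by decide
    have e3 : sZ 0 3 = 3 := by decide
    have e4 : sZ 0 4 = 3 := by decide
    show -(1/3) * ((-1 : ℝ) ^ 0 * DD v 0 * (sZ 0 0 : ℝ) + (-1 : ℝ) ^ 1 * DD v 1 * (sZ 0 1 : ℝ) +
      (-1 : ℝ) ^ 2 * DD v 2 * (sZ 0 2 : ℝ) + (-1 : ℝ) ^ 3 * DD v 3 * (sZ 0 3 : ℝ) +
      (-1 : ℝ) ^ 4 * DD v 4 * (sZ 0 4 : ℝ)) = RR 0 v
    have hR : RR 0 v = DD v 0 := by
      unfold RR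
      rw [if_neg (by decide), if_neg (by decide), if_neg (by decide)]
    rw [hR, e0, e1, e2, e3, e4]
    push_cast
    linear_combination (-1 : ℝ) * hc
  · have e0 : sZ 1 0 = 3 := by decide
    have e1 : sZ 1 1 = 3 := by decide
    have e2 : sZ 1 2 = 6 := by decide
    have e3 : sZ 1 3 = 6 := by decide
    have e4 : sZ 1 4 = 6 := by decide
    show -(1/3) * ((-1 : ℝ) ^ 0 * DD v 0 * (sZ 1 0 : ℝ) + (-1 : ℝ) ^ 1 * DD v 1 * (sZ 1 1 : ℝ) +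
      (-1 : ℝ) ^ 2 * DD v 2 * (sZ 1 2 : ℝ) + (-1 : ℝ) ^ 3 * DD v 3 * (sZ 1 3 : ℝ) +
      (-1 : ℝ) ^ 4 * DD v 4 * (sZ 1 4 : ℝ)) = RR 1 v
    have hR : RR 1 v = DD v 0 - DD v 1 := by
      unfold RR
      rw [if_neg (by decide), if_neg (by decide), if_pos rfl]
    rw [hR, e0, e1, e2, e3, e4]
    push_cast
    linear_combination (-2 : ℝ) * hc
  · have e0 : sZ 2 0 = 6 := by decide
    have e1 : sZ 2 1 = 6 := by decide
    have e2 : sZ 2 2 = 6 := by decide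
    have e3 : sZ 2 3 = 6 := by decide
    have e4 : sZ 2 4 = 6 := by decide
    show -(1/3) * ((-1 : ℝ) ^ 0 * DD v 0 * (sZ 2 0 : ℝ) + (-1 : ℝ) ^ 1 * DD v 1 * (sZ 2 1 : ℝ) +
      (-1 : ℝ) ^ 2 * DD v 2 * (sZ 2 2 : ℝ) + (-1 : ℝ) ^ 3 * DD v 3 * (sZ 2 3 : ℝ) +
      (-1 : ℝ) ^ 4 * DD v 4 * (sZ 2 4 : ℝ)) = RR 2 v
    have hR : RR 2 v = 0 := by
      unfold RR
      rw [if_neg (by decide), if_pos rfl]
    rw [hR, e0, e1, e2, e3, e4]
    push_cast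
    linear_combination (-2 : ℝ) * hc
  · have e0 : sZ 3 0 = 6 := by decide
    have e1 : sZ 3 1 = 6 := by decide
    have e2 : sZ 3 2 = 6 := by decide
    have e3 : sZ 3 3 = 6 := by decide
    have e4 : sZ 3 4 = 0 := by decide
    show -(1/3) * ((-1 : ℝ) ^ 0 * DD v 0 * (sZ 3 0 : ℝ) + (-1 : ℝ) ^ 1 * DD v 1 * (sZ 3 1 : ℝ) +
      (-1 : ℝ) ^ 2 * DD v 2 * (sZ 3 2 : ℝ) + (-1 : ℝ) ^ 3 * DD v 3 * (sZ 3 3 : ℝ) +
      (-1 : ℝ) ^ 4 * DD v 4 * (sZ 3 4 : ℝ)) = RR 3 v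
    have hR : RR 3 v = 2 * DD v 4 := by
      unfold RR
      rw [if_pos rfl]
    rw [hR, e0, e1, e2, e3, e4]
    push_cast
    linear_combination (-2 : ℝ) * hc

end Pool.Agent.Helper95.EXG
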