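import Pool.Agent.Helper95.EXG.G8
import Pool.Agent.Helper95.EXG.G9
import Pool.Agent.Helper95.EXG.G10
import Pool.Agent.Helper95.EXG.G11

/-! Project EX, module Y, piece EXY-12: assembly. -/

set_option autoImplicit false

namespace Pool.Agent.Helper95.EXG

open Pool.Agent.Helper87.EX MeasureTheory Complex Filter
open scoped Topology ENNReal

/-- The simplices of the prism. Proof: unfold `HH`, `F1`, `pri`, `conf`, `xact`, `PP`;
`act (a * b) m = act a (act b m)` and the matrix of `aT T` is diagonal. -/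
theorem pri_conf (s : Fin 4 → Matrix.SpecialLinearGroup (Fin 2) ℂ) (i : Fin 4) (T : ℝ) :
    HH F1 (pri (aT T) (fun j => emb (s j)) i) =
      ∫ m, Psi (conf i T (xact (fun j => emb (s (i.predAbove j))) m)) ∂(PP 5) := by
  unfold HH PP
  refine integral_congr_ae (Filter.Eventually.of_forall fun m => ?_)
  simp only [F1]
  congr 1
  funext j
  by_cases h : (j : ℕ) ≤ (i : ℕ)
  · have e1 : pri (aT T) (fun j => emb (s j)) i j = emb (s (i.predAbove j)) := by
      simp only [pri, if_pos h]
    rw [e1]
    funext l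
    unfold conf al de xact
    simp only [if_pos h]
    fin_cases l <;> simp
  · have e1 : pri (aT T) (fun j => emb (s j)) i j = aT T * emb (s (i.predAbove j)) := by
      simp only [pri, if_neg h]
    rw [e1]
    have e2 : ((aT T * emb (s (i.predAbove j)) : G3) : Matrix (Fin 3) (Fin 3) ℂ)
        = (aT T : Matrix (Fin 3) (Fin 3) ℂ) * (emb (s (i.predAbove j)) : Matrix (Fin 3) (Fin 3) ℂ) :=
      rfl
    rw [e2]
    show ((aT T : Matrix (Fin 3) (Fin 3) ℂ) *
      (emb (s (i.predAbove j)) : Matrix (Fin 3) (Fin 3) ℂ)).mulVec (m j 0) = _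
    rw [← Matrix.mulVec_mulVec]
    unfold conf al de xact
    simp only [if_neg h]
    funext l
    show (aT T : Matrix (Fin 3) (Fin 3) ℂ).mulVec _ l = _
    fin_cases l <;>
      simp [aT, act, Matrix.mulVec, dotProduct, Fin.sum_univ_three]

private theorem b2_meas {X : Type} [MeasurableSpace X] {f g : X → (Fin 3 → ℂ)}
    (hf : Measurable f) (hg : Measurable g) : Measurable (fun x => b2 (f x) (g x)) := by
  unfold b2
  have h1 := fun i : Fin 3 => (measurable_pi_iff.1 hf i)
  have h2 := fun i : Fin 3 => (measurable_pi_iff.1 hg i)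
  exact ((h1 1).mul (h2 2)).sub ((h1 2).mul (h2 1))

private theorem F3_meas : Measurable F3 := by
  have h : ∀ j : Fin 4, Measurable (fun v : Fin 4 → E 1 => v j 0) := fun j =>
    (measurable_pi_apply 0).comp (measurable_pi_apply j)
  unfold F3
  exact BW_meas.comp (((b2_meas (h 0) (h 2)).mul (b2_meas (h 1) (h 3))).div
    ((b2_meas (h 0) (h 3)).mul (b2_meas (h 1) (h 2))))

private theorem act_meas (g : Matrix (Fin 3) (Fin 3) ℂ) {n : ℕ} :
    Measurable (fun m : E n => act g m) := by
  apply Continuous.measurable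
  unfold act
  fun_prop

private theorem F3_act_meas (g : Fin 4 → G3) :
    Measurable (fun m : Fin 4 → E 1 => F3 (fun j => act (g j : Matrix (Fin 3) (Fin 3) ℂ) (m j))) :=
  F3_meas.comp (measurable_pi_lambda _ fun j => (act_meas _).comp (measurable_pi_apply j))

/-- Forgetting the last vector. Proof: `m ↦ (fun j => m j.castSucc)` maps `PP 5` to `PP 4`
(`measurePreserving_piFinSuccAbove` for `Fin.last 4` and `measurePreserving_snd`, or `Measure.pi_eq`), and
`(3 : Fin 4).predAbove j.castSucc = j` for `j : Fin 4`. -/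
theorem int_F3 (s : Fin 4 → Matrix.SpecialLinearGroup (Fin 2) ℂ) :
    ∫ m, F3 (fun j => xact (fun j => emb (s ((3 : Fin 4).predAbove j))) m j.castSucc) ∂(PP 5)
      = HH F3 (fun j => emb (s j)) := by
  haveI := gam_prob 1
  have h1 := measurePreserving_piFinSuccAbove (fun _ : Fin 5 => gam 1) (Fin.last 4)
  have h2 : MeasurePreserving (Prod.snd : E 1 × (Fin 4 → E 1) → (Fin 4 → E 1))
      ((gam 1).prod (Measure.pi (fun _ : Fin 4 => gam 1)))
      (Measure.pi (fun _ : Fin 4 => gam 1)) := measurePreserving_snd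
  have h3 := h2.comp h1
  have e : (Prod.snd ∘ ⇑(MeasurableEquiv.piFinSuccAbove (fun _ : Fin 5 => E 1) (Fin.last 4)))
      = fun (m : Fin 5 → E 1) (j : Fin 4) => m j.castSucc := by
    funext m j
    show m ((Fin.last 4).succAbove j) = m j.castSucc
    rw [Fin.succAbove_last]
  rw [e] at h3
  unfold HH
  rw [← h3.map_eq, integral_map h3.measurable.aemeasurable]
  · refine integral_congr_ae (Filter.Eventually.of_forall fun m => ?_)
    simp only
    congr 1
    funext j
    have e3 : (3 : Fin 4).predAbove j.castSucc = j := by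
      fin_cases j <;> rfl
    simp only [xact, e3]
  · apply Measurable.aestronglyMeasurable
    exact F3_act_meas _

/-- Dominated convergence: `RS = RR` a.s. for `T >= 0` (`conf_gen`, `ae_xact`, `RS_eq`), `RR` is bounded by
`2 C` (`DD_bdd`), `lim_RR`. -/
theorem lim_int (x : Fin 5 → G3) (i : Fin 4) :
    Tendsto (fun T : ℝ => ∫ m, RS i (conf i T (xact x m)) ∂(PP 5)) atTop
      (𝓝 (∫ m, LR i (xact x m) ∂(PP 5))) := by
  haveI := gam_prob 1
  haveI : IsProbabilityMeasure (PP 5) := by
    unfold PP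
    infer_instance
  obtain ⟨C, hC0, hC⟩ := DD_bdd
  have hRR : ∀ v : Fin 5 → Fin 3 → ℂ, ‖RR i v‖ ≤ 2 * C := by
    intro v
    rw [Real.norm_eq_abs]
    unfold RR
    split_ifs
    · rw [abs_mul, abs_two]
      linarith [hC v 4]
    · rw [abs_zero]
      linarith
    · have := abs_sub (DD v 0) (DD v 1)
      linarith [hC v 0, hC v 1]
    · linarith [hC v 0]
  have hRRm : Measurable (fun v : Fin 5 → Fin 3 → ℂ => RR i v) := by
    unfold RR
    split_ifs
    · exact (DD_meas 4).const_mul 2
    · exact measurable_const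
    · exact (DD_meas 0).sub (DD_meas 1)
    · exact DD_meas 0
  have h1 : Tendsto (fun T : ℝ => ∫ m, RR i (conf i T (xact x m)) ∂(PP 5)) atTop
      (𝓝 (∫ m, LR i (xact x m) ∂(PP 5))) := by
    refine tendsto_integral_filter_of_dominated_convergence (fun _ => 2 * C) ?_ ?_ ?_ ?_
    · exact Filter.Eventually.of_forall fun T =>
        (hRRm.comp ((conf_meas i T).comp (xact_meas x))).aestronglyMeasurable
    · exact Filter.Eventually.of_forall fun T => Filter.Eventually.of_forall fun m => hRR _
    · exact integrable_const _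
    · exact ae_xact x (lim_RR i)
  refine h1.congr' ?_
  filter_upwards [Filter.eventually_ge_atTop (0 : ℝ)] with T hT
  refine integral_congr_ae ?_
  filter_upwards [ae_xact x (conf_gen i T hT)] with m hm
  exact (RS_eq i _ hm).symm

theorem LR_int (s : Fin 4 → Matrix.SpecialLinearGroup (Fin 2) ℂ) (i : Fin 4) :
    ∫ m, LR i (xact (fun j => emb (s (i.predAbove j))) m) ∂(PP 5) =
      if i = 3 then 2 * HH F3 (fun j => emb (s j)) else 0 := by
  haveI := gam_prob 1
  haveI : IsProbabilityMeasure (PP 5) := by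
    unfold PP
    infer_instance
  obtain ⟨hf0m, ⟨C0, hC0⟩, hf0o⟩ := f0_facts
  obtain ⟨hf1m, ⟨C1, hC1⟩, hf1o⟩ := f1_facts
  have hf1i : ∀ (x : Fin 5 → G3) (p : Fin 5), Integrable (fun m => f1 (zz p (xact x m))) (PP 5) :=
    fun x p => Integrable.of_bound (C := C1)
      (hf1m.comp ((zz_meas p).comp (xact_meas x))).aestronglyMeasurable
      (Filter.Eventually.of_forall fun m => hC1 _)
  by_cases h3 : i = 3
  · subst h3
    rw [if_pos rfl]
    have e : ∀ w : Fin 5 → E 1, LR 3 w = 2 * F3 (fun j => w j.castSucc) := fun w => by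
      unfold LR
      rw [if_pos rfl]
    simp_rw [e]
    rw [integral_const_mul, ← int_F3 s]
  · rw [if_neg h3]
    by_cases h2 : i = 2
    · subst h2
      have e : ∀ w : Fin 5 → E 1, LR 2 w = 0 := fun w => by
        unfold LR
        rw [if_neg (by decide), if_pos rfl]
      simp_rw [e]
      simp
    · by_cases h1 : i = 1
      · subst h1
        have e : ∀ w : Fin 5 → E 1, LR 1 w = f1 (zz 0 w) - f1 (zz 1 w) := fun w => by
          unfold LR
          rw [if_neg (by decide), if_neg (by decide), if_pos rfl]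
        simp_rw [e]
        rw [integral_sub (hf1i _ 0) (hf1i _ 1)]
        rw [odd_zero (fun j => s ((1 : Fin 4).predAbove j)) 0 f1 hf1m ⟨C1, hC1⟩ hf1o,
          odd_zero (fun j => s ((1 : Fin 4).predAbove j)) 1 f1 hf1m ⟨C1, hC1⟩ hf1o, sub_zero]
      · have e : ∀ w : Fin 5 → E 1, LR i w = f0 (zz 0 w) := fun w => by
          unfold LR
          rw [if_neg h3, if_neg h2, if_neg h1]
        simp_rw [e]
        exact odd_zero (fun j => s (i.predAbove j)) 0 f0 hf0m ⟨C0, hC0⟩ hf0o

theorem growth' (s : Fin 4 → Matrix.SpecialLinearGroup (Fin 2) ℂ) :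
    Tendsto (fun T : ℝ => Pr (HH F1) (aT T) (fun i => emb (s i)) / T) atTop
      (𝓝 (-2 * HH F3 (fun i => emb (s i)))) := by
  have key : ∀ i : Fin 4, Tendsto (fun T : ℝ => HH F1 (pri (aT T) (fun j => emb (s j)) i) / T) atTop
      (𝓝 (if i = 3 then 2 * HH F3 (fun j => emb (s j)) else 0)) := by
    intro i
    have h1 := red (fun j => emb (s (i.predAbove j))) i
    have h2 := lim_int (fun j => emb (s (i.predAbove j))) i
    rw [LR_int s i] at h2
    have h3 := h1.add h2
    rw [zero_add] at h3
    refine h3.congr (fun T => ?_)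
    rw [pri_conf]
    ring
  have h : Tendsto (fun T : ℝ => ∑ i : Fin 4, (-1 : ℝ) ^ (i : ℕ) *
      (HH F1 (pri (aT T) (fun j => emb (s j)) i) / T)) atTop
      (𝓝 (∑ i : Fin 4, (-1 : ℝ) ^ (i : ℕ) *
        (if i = 3 then 2 * HH F3 (fun j => emb (s j)) else 0))) :=
    tendsto_finset_sum _ (fun i _ => (key i).const_mul _)
  have e : (∑ i : Fin 4, (-1 : ℝ) ^ (i : ℕ) *
        (if i = 3 then 2 * HH F3 (fun j => emb (s j)) else 0)) = -2 * HH F3 (fun i => emb (s i)) := by
    rw [Finset.sum_eq_single (3 : Fin 4)]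
    · simp only [if_true]
      norm_num
    · intro b _ hb
      simp [hb]
    · simp
  rw [e] at h
  refine h.congr (fun T => ?_)
  unfold Pr
  rw [Finset.sum_div]
  exact Finset.sum_congr rfl (fun i _ => by ring)

end Pool.Agent.Helper95.EXG
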