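import Pool.Agent.Helper87.EX.B
import Pool.Agent.Helper87.EX.C

/-! Project EX, module Y (growth of the prism of `h`), definitions. Captain: helper95. -/

set_option autoImplicit false

namespace Pool.Agent.Helper95.EXG

open Pool.Agent.Helper87.EX MeasureTheory Complex Filter
open scoped Topology ENNReal

/-- replace the coordinate `l` of the vector `j` by `z` -/
def upd {k : ℕ} (j : Fin k) (l : Fin 3) (z : ℂ) (m : Fin k → E 1) : Fin k → E 1 :=
  Function.update m j (fun _ => Function.update (m j 0) l z)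

/-- complex Gaussian probability measure with density `(c/π) exp (-c |z|^2)` -/
noncomputable def nu (c : ℝ) : Measure ℂ :=
  (volume : Measure ℂ).withDensity
    (fun z => ENNReal.ofReal (c / Real.pi * Real.exp (-c * Complex.normSq z)))

/-- the product of three copies of `nu c`, on `E 1` -/
noncomputable def nuE (c : ℝ) : Measure (E 1) :=
  Measure.pi (fun _ : Fin 1 => Measure.pi (fun _ : Fin 3 => nu c))

/-- the product of `3 k` copies of `nu c` -/
noncomputable def mu (c : ℝ) (k : ℕ) : Measure (Fin k → E 1) :=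
  Measure.pi (fun _ : Fin k => nuE c)

/-- the group elements `x i` applied to the vectors `m i` -/
def xact {k : ℕ} (x : Fin k → G3) (m : Fin k → E 1) : Fin k → E 1 :=
  fun i => act (x i : Matrix (Fin 3) (Fin 3) ℂ) (m i)

/-- law of the configuration: `k` independent Gaussian vectors -/
noncomputable def PP (k : ℕ) : Measure (Fin k → E 1) := Measure.pi (fun _ : Fin k => gam 1)

/-- factor of the first coordinate of the vector `j` -/
noncomputable def al (i : Fin 4) (T : ℝ) (j : Fin 5) : ℝ :=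
  if (j : ℕ) ≤ (i : ℕ) then 1 else Real.exp (2 * T)

/-- factor of the two other coordinates of the vector `j` -/
noncomputable def de (i : Fin 4) (T : ℝ) (j : Fin 5) : ℝ :=
  if (j : ℕ) ≤ (i : ℕ) then 1 else Real.exp (-T)

/-- the configuration `w_0, .., w_i, a_T w_(i+1), .., a_T w_4` -/
noncomputable def conf (i : Fin 4) (T : ℝ) (w : Fin 5 → E 1) : Fin 5 → Fin 3 → ℂ :=
  fun j => ![(al i T j : ℂ) * w j 0 0, (de i T j : ℂ) * w j 0 1, (de i T j : ℂ) * w j 0 2]

/-- growth rate of `log |dt|` of the triple `a < b < e` -/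
def rt (i : Fin 4) (a b e : Fin 5) : ℝ :=
  (if (e : ℕ) ≤ (i : ℕ) then 0 else 2) - (if (a : ℕ) ≤ (i : ℕ) then 0 else 1)
    - (if (b : ℕ) ≤ (i : ℕ) then 0 else 1)

/-- `Psi` with `log |dt|` replaced by its growth rate -/
noncomputable def RS (i : Fin 4) (v : Fin 5 → Fin 3 → ℂ) : ℝ :=
  -(1 / 3) * ∑ p : Fin 5, ∑ r : Fin 4, (-1 : ℝ) ^ (p : ℕ) * DD v p *
      rt i (p.succAbove (r.succAbove 0)) (p.succAbove (r.succAbove 1)) (p.succAbove (r.succAbove 2))

/-- the values of `RS` (by the conic relation) -/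
noncomputable def RR (i : Fin 4) (v : Fin 5 → Fin 3 → ℂ) : ℝ :=
  if i = 3 then 2 * DD v 4 else if i = 2 then 0 else if i = 1 then DD v 0 - DD v 1 else DD v 0

/-- the limit point `z_j` of `a_T w_j` seen from `w_p` -/
noncomputable def zz (p : Fin 5) (w : Fin 5 → E 1) (j : Fin 5) : ℂ :=
  b2 (w p 0) (w j 0) / w j 0 0

/-- limit of `DD _ 0` for `i = 0` -/
noncomputable def f0 (z : Fin 5 → ℂ) : ℝ :=
  BW ((z 1 - z 3) * (z 2 - z 4) / ((z 1 - z 4) * (z 2 - z 3)))

/-- limit of `DD _ 0` and `DD _ 1` for `i = 1` -/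
noncomputable def f1 (z : Fin 5 → ℂ) : ℝ := BW ((z 2 - z 4) / (z 2 - z 3))

/-- the limit of `RR` -/
noncomputable def LR (i : Fin 4) (w : Fin 5 → E 1) : ℝ :=
  if i = 3 then 2 * F3 (fun j => w j.castSucc) else if i = 2 then 0
    else if i = 1 then f1 (zz 0 w) - f1 (zz 1 w) else f0 (zz 0 w)

end Pool.Agent.Helper95.EXG
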