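import Pool.Agent.Helper95.EXG.G0

/-! Project EX, module Y, piece EXY-1: the complex Gaussian measure `nu c`. -/

set_option autoImplicit false

namespace Pool.Agent.Helper95.EXG

open Pool.Agent.Helper87.EX MeasureTheory Complex Filter
open scoped Topology ENNReal

/-- `nu c` is a probability measure. Proof: `GaussianFourier.integral_rexp_neg_mul_sq_norm` for `V = ℂ`
(finrank 2) gives `∫ exp (-c ‖z‖^2) = π / c`; `Complex.normSq_eq_norm_sq`;
`withDensity_apply`, `ofReal_integral_eq_lintegral_ofReal`. -/
theorem nu_prob {c : ℝ} (hc : 0 < c) : IsProbabilityMeasure (nu c) := by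
  have hint : Integrable (fun z : ℂ => Real.exp (-c * ‖z‖ ^ 2)) := by
    by_contra h
    have h1 := GaussianFourier.integral_rexp_neg_mul_sq_norm (V := ℂ) hc
    rw [integral_undef h] at h1
    have h2 : 0 < (Real.pi / c) ^ ((Module.finrank ℝ ℂ : ℝ) / 2) :=
      Real.rpow_pos_of_pos (div_pos Real.pi_pos hc) _
    linarith
  have h1 := GaussianFourier.integral_rexp_neg_mul_sq_norm (V := ℂ) hc
  have h2 : ∫ z : ℂ, Real.exp (-c * ‖z‖ ^ 2) = Real.pi / c := by
    rw [h1, Complex.finrank_real_complex]
    norm_num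
  have h3 : ∀ z : ℂ, c / Real.pi * Real.exp (-c * Complex.normSq z)
      = c / Real.pi * Real.exp (-c * ‖z‖ ^ 2) := fun z => by rw [Complex.normSq_eq_norm_sq]
  constructor
  rw [nu, withDensity_apply _ MeasurableSet.univ, Measure.restrict_univ]
  simp only [h3]
  rw [← ofReal_integral_eq_lintegral_ofReal (hint.const_mul _)
    (ae_of_all _ fun z => by have := Real.pi_pos; positivity), integral_const_mul, h2]
  rw [show c / Real.pi * (Real.pi / c) = 1 by field_simp [Real.pi_pos.ne']]
  exact ENNReal.ofReal_one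

theorem nuE_prob {c : ℝ} (hc : 0 < c) : IsProbabilityMeasure (nuE c) := by
  haveI := nu_prob hc
  unfold nuE
  infer_instance

theorem mu_prob {c : ℝ} (hc : 0 < c) (k : ℕ) : IsProbabilityMeasure (mu c k) := by
  haveI := nuE_prob hc
  unfold mu
  infer_instance

/-- `z ↦ conj z * u` preserves `nu c` if `|u| = 1`. Proof: conjugation and the multiplication by `u` are
linear isometric equivalences of `ℂ` over `ℝ` (`Complex.conjLIE`, `rotation`), so they preserve `volume`
(`LinearIsometryEquiv.measurePreserving`), and the density depends only on `|z|`. -/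
theorem nu_rot {c : ℝ} (hc : 0 < c) (u : ℂ) (hu : ‖u‖ = 1) :
    MeasurePreserving (fun z : ℂ => (starRingEnd ℂ) z * u) (nu c) (nu c) := by
  have hmeas : Measurable (fun z : ℂ => (starRingEnd ℂ) z * u) :=
    (Complex.continuous_conj.mul continuous_const).measurable
  have hcirc : u ∈ Submonoid.unitSphere ℂ := mem_sphere_zero_iff_norm.2 hu
  have hmp : MeasurePreserving (fun z : ℂ => (starRingEnd ℂ) z * u) volume volume := by
    have h1 : MeasurePreserving (Complex.conjLIE : ℂ → ℂ) volume volume :=
      Complex.conjLIE.measurePreserving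
    have h2 : MeasurePreserving (rotation (⟨u, hcirc⟩ : Circle) : ℂ → ℂ) volume volume :=
      (rotation (⟨u, hcirc⟩ : Circle)).measurePreserving
    have h3 := h2.comp h1
    have h4 : (rotation (⟨u, hcirc⟩ : Circle) : ℂ → ℂ) ∘ (Complex.conjLIE : ℂ → ℂ)
        = fun z : ℂ => (starRingEnd ℂ) z * u := by
      funext z
      show ((⟨u, hcirc⟩ : Circle) : ℂ) * (starRingEnd ℂ) z = _
      rw [mul_comm]
    rwa [h4] at h3
  have hrho : Measurable (fun z : ℂ =>
      ENNReal.ofReal (c / Real.pi * Real.exp (-c * Complex.normSq z))) := by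
    apply Measurable.ennreal_ofReal
    apply Measurable.const_mul
    apply Real.measurable_exp.comp
    exact (Complex.continuous_normSq.measurable).const_mul _
  refine ⟨hmeas, ?_⟩
  ext s hs
  rw [Measure.map_apply hmeas hs, nu, withDensity_apply _ (hmeas hs), withDensity_apply _ hs,
    ← hmp.setLIntegral_comp_preimage hs hrho]
  refine lintegral_congr fun z => ?_
  rw [Complex.normSq_mul, Complex.normSq_conj, Complex.normSq_eq_norm_sq u, hu]
  norm_num

/-- For a bounded measurable `g : ℂ → ℝ` and any `b`, the law of `b / z` is invariant under conjugation.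
Proof: `b = 0` is trivial; otherwise put `u = b / conj b`, `|u| = 1`; `conj (b / z) = b / (conj z * u)`
for all `z` (also `z = 0`), so the right side is `∫ g (b / (conj z * u)) = ∫ g (b / z)` by `nu_rot`
(`MeasurePreserving.integral_comp'` needs a measurable equivalence or use
`MeasurePreserving.map_eq` with `integral_map`). -/
theorem nu_flip {c : ℝ} (hc : 0 < c) (b : ℂ) (g : ℂ → ℝ) (hg : Measurable g) :
    ∫ z, g (b / z) ∂(nu c) = ∫ z, g ((starRingEnd ℂ) (b / z)) ∂(nu c) := by
  by_cases hb : b = 0
  · subst hb; simp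
  have hb' : (starRingEnd ℂ) b ≠ 0 := by
    rwa [Ne, map_eq_zero]
  set u : ℂ := b / (starRingEnd ℂ) b with hu
  have hu1 : ‖u‖ = 1 := by
    rw [hu, norm_div, Complex.norm_conj, div_self (norm_ne_zero_iff.mpr hb)]
  have hmp := nu_rot hc u hu1
  have hmg : Measurable (fun w : ℂ => g (b / w)) := hg.comp (measurable_const.div measurable_id)
  have h1 : ∫ w, g (b / w) ∂(nu c)
      = ∫ z, g (b / ((starRingEnd ℂ) z * u)) ∂(nu c) := by
    conv_lhs => rw [← hmp.map_eq]
    exact integral_map hmp.measurable.aemeasurable hmg.aestronglyMeasurable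
  rw [h1]
  refine integral_congr_ae (ae_of_all _ fun z => ?_)
  have h2 : b / ((starRingEnd ℂ) z * u) = (starRingEnd ℂ) (b / z) := by
    rw [map_div₀, hu]
    by_cases hz : (starRingEnd ℂ) z = 0
    · simp [hz]
    · field_simp
  show g _ = g _
  rw [h2]

end Pool.Agent.Helper95.EXG
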