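import Pool.Agent.Helper95.EXG.G1

/-! Project EX, module Y, piece EXY-2: resampling of one coordinate. -/

set_option autoImplicit false

namespace Pool.Agent.Helper95.EXG

open Pool.Agent.Helper87.EX MeasureTheory Complex Filter
open scoped Topology ENNReal

/-- Resampling one factor of a product of probability measures. Proof: measurability by
`measurable_pi_iff` (or `measurable_update'`); `Measure.pi_eq`: for a box `univ.pi s` the preimage is
the product of the box with `s j` replaced by `univ` and of `s j`, whose measure is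
`(∏_{i ≠ j} μ i (s i)) * 1 * μ j (s j)`. -/
theorem pi_update_mp {ι : Type*} [Fintype ι] [DecidableEq ι] {α : ι → Type*}
    [∀ i, MeasurableSpace (α i)] (μ : ∀ i, Measure (α i)) [∀ i, IsProbabilityMeasure (μ i)] (j : ι) :
    MeasurePreserving (fun p : (∀ i, α i) × α j => Function.update p.1 j p.2)
      ((Measure.pi μ).prod (μ j)) (Measure.pi μ) := by
  refine ⟨measurable_update', ?_⟩
  refine (Measure.pi_eq (fun s hs => ?_)).symm
  rw [Measure.map_apply measurable_update' (MeasurableSet.univ_pi hs)]
  have : (fun p : (∀ i, α i) × α j => Function.update p.1 j p.2) ⁻¹' (Set.univ.pi s)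
      = (Set.univ.pi (Function.update s j Set.univ)) ×ˢ (s j) := by
    ext ⟨m, y⟩
    simp only [Set.mem_preimage, Set.mem_pi, Set.mem_univ, true_imp_iff, Set.mem_prod]
    constructor
    · intro h
      refine ⟨fun i => ?_, by simpa using h j⟩
      by_cases hi : i = j
      · subst hi
        simp
      · have := h i
        simpa [Function.update_of_ne hi] using this
    · rintro ⟨h1, h2⟩ i
      by_cases hi : i = j
      · subst hi
        simpa using h2
      · have := h1 i
        simpa [Function.update_of_ne hi] using this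
  rw [this, Measure.prod_prod, Measure.pi_pi, ← Finset.mul_prod_erase Finset.univ _ (Finset.mem_univ j),
    ← Finset.mul_prod_erase Finset.univ (fun i => μ i (s i)) (Finset.mem_univ j)]
  simp only [Function.update_self, measure_univ, one_mul]
  rw [mul_comm]
  congr 1
  refine Finset.prod_congr rfl (fun i hi => ?_)
  rw [Function.update_of_ne (Finset.ne_of_mem_erase hi)]

/-- Resampling inside one factor. Let `φ : α j × β → α j` map `μ j × ν` to `μ j`. Then
`(m, z) ↦ update m j (φ (m j, z))` maps `Measure.pi μ × ν` to `Measure.pi μ`. Proof: call this map `Ψ`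
and `A ((m, x), z) = (update m j x, z)`; `A` maps `(pi μ × μ j) × ν` to `pi μ × ν` (`pi_update_mp`,
`MeasurePreserving.prod`/`id`), and `Ψ ∘ A ((m, x), z) = update m j (φ (x, z))`, which is
`pi_update_mp` after `(m, x, z) ↦ (m, φ (x, z))` (and `measurePreserving_prodAssoc`): so
`map Ψ (pi μ × ν) = map Ψ (map A ..) = map (Ψ ∘ A) .. = pi μ`. -/
theorem pi_update_mp' {ι : Type*} [Fintype ι] [DecidableEq ι] {α : ι → Type*}
    [∀ i, MeasurableSpace (α i)] (μ : ∀ i, Measure (α i)) [∀ i, IsProbabilityMeasure (μ i)] (j : ι)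
    {β : Type*} [MeasurableSpace β] (ν : Measure β) [IsProbabilityMeasure ν]
    (φ : α j × β → α j) (hφ : MeasurePreserving φ ((μ j).prod ν) (μ j)) :
    MeasurePreserving (fun p : (∀ i, α i) × β => Function.update p.1 j (φ (p.1 j, p.2)))
      ((Measure.pi μ).prod ν) (Measure.pi μ) := by
  have hΨm : Measurable (fun p : (∀ i, α i) × β => Function.update p.1 j (φ (p.1 j, p.2))) := by
    have h1 : Measurable (fun p : (∀ i, α i) × β => (p.1, φ (p.1 j, p.2))) :=
      measurable_fst.prodMk (hφ.measurable.comp
        (((measurable_pi_apply j).comp measurable_fst).prodMk measurable_snd))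
    exact measurable_update'.comp h1
  have hA : MeasurePreserving (fun p : ((∀ i, α i) × α j) × β => (Function.update p.1.1 j p.1.2, p.2))
      (((Measure.pi μ).prod (μ j)).prod ν) ((Measure.pi μ).prod ν) :=
    (pi_update_mp μ j).prod (MeasurePreserving.id ν)
  have hB : MeasurePreserving
      (fun p : ((∀ i, α i) × α j) × β => Function.update p.1.1 j (φ (p.1.2, p.2)))
      (((Measure.pi μ).prod (μ j)).prod ν) (Measure.pi μ) := by
    have h1 := (measurePreserving_prodAssoc (Measure.pi μ) (μ j) ν)
    have h2 : MeasurePreserving (fun p : (∀ i, α i) × (α j × β) => (p.1, φ p.2))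
      ((Measure.pi μ).prod ((μ j).prod ν)) ((Measure.pi μ).prod (μ j)) :=
      (MeasurePreserving.id _).prod hφ
    exact (pi_update_mp μ j).comp (h2.comp h1)
  refine ⟨hΨm, ?_⟩
  rw [← hA.map_eq, Measure.map_map hΨm hA.measurable]
  have : (fun p : (∀ i, α i) × β => Function.update p.1 j (φ (p.1 j, p.2))) ∘
      (fun p : ((∀ i, α i) × α j) × β => (Function.update p.1.1 j p.1.2, p.2)) =
      (fun p : ((∀ i, α i) × α j) × β => Function.update p.1.1 j (φ (p.1.2, p.2))) := by
    funext p
    simp
  rw [this]
  exact hB.map_eq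

/-- Resampling the coordinate `l` of the vector `j`. Proof: `pi_update_mp` for `Fin 3`, then
`pi_update_mp'` for `Fin 1` (where `Function.update x 0 y = fun _ => y`) and for `Fin k`. -/
theorem resample_mp {c : ℝ} (hc : 0 < c) {k : ℕ} (j : Fin k) (l : Fin 3) :
    MeasurePreserving (fun p : (Fin k → E 1) × ℂ => upd j l p.2 p.1)
      ((mu c k).prod (nu c)) (mu c k) := by
  have h0 := nu_prob hc
  have hE := nuE_prob hc
  have h1 : MeasurePreserving (fun p : (Fin 3 → ℂ) × ℂ => Function.update p.1 l p.2)
      ((Measure.pi (fun _ : Fin 3 => nu c)).prod (nu c)) (Measure.pi (fun _ : Fin 3 => nu c)) :=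
    pi_update_mp (fun _ : Fin 3 => nu c) l
  have h2 := pi_update_mp' (fun _ : Fin 1 => Measure.pi (fun _ : Fin 3 => nu c)) 0 (nu c)
    (fun p : (Fin 3 → ℂ) × ℂ => Function.update p.1 l p.2) h1
  have h3 : MeasurePreserving (fun p : E 1 × ℂ => ((fun _ => Function.update (p.1 0) l p.2) : E 1))
      ((nuE c).prod (nu c)) (nuE c) := by
    have he : (fun p : E 1 × ℂ => ((fun _ => Function.update (p.1 0) l p.2) : E 1)) =
        fun p : (Fin 1 → Fin 3 → ℂ) × ℂ => Function.update p.1 0 (Function.update (p.1 0) l p.2) := by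
      funext p i
      rw [Subsingleton.elim i 0, Function.update_self]
    rw [he]
    exact h2
  exact pi_update_mp' (fun _ : Fin k => nuE c) j (nu c)
    (fun p : E 1 × ℂ => ((fun _ => Function.update (p.1 0) l p.2) : E 1)) h3

theorem upd_meas {k : ℕ} (j : Fin k) (l : Fin 3) :
    Measurable (fun p : (Fin k → E 1) × ℂ => upd j l p.2 p.1) :=
  (resample_mp one_pos j l).measurable

/-- lintegral form of `resample_mp` (`MeasurePreserving.lintegral_comp`, `lintegral_prod`). -/
theorem resample {c : ℝ} (hc : 0 < c) {k : ℕ} (j : Fin k) (l : Fin 3)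
    (f : (Fin k → E 1) → ℝ≥0∞) (hf : Measurable f) :
    ∫⁻ m, f m ∂(mu c k) = ∫⁻ m, ∫⁻ z, f (upd j l z m) ∂(nu c) ∂(mu c k) := by
  have h0 := nu_prob hc
  rw [← (resample_mp hc j l).lintegral_comp hf]
  exact lintegral_prod _ (hf.comp (upd_meas j l)).aemeasurable

/-- integral form of `resample_mp`, for bounded measurable functions (`integral_map`, `integral_prod`,
bounded measurable functions are integrable for a probability measure). -/
theorem resample_int {c : ℝ} (hc : 0 < c) {k : ℕ} (j : Fin k) (l : Fin 3)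
    (f : (Fin k → E 1) → ℝ) (hf : Measurable f) (hb : ∃ C : ℝ, ∀ m, |f m| ≤ C) :
    ∫ m, f m ∂(mu c k) = ∫ m, ∫ z, f (upd j l z m) ∂(nu c) ∂(mu c k) := by
  have h0 := nu_prob hc
  have h1 := mu_prob hc k
  obtain ⟨C, hC⟩ := hb
  have h2 : Integrable (fun p : (Fin k → E 1) × ℂ => f (upd j l p.2 p.1)) ((mu c k).prod (nu c)) :=
    Integrable.of_bound (hf.comp (upd_meas j l)).aestronglyMeasurable C
      (ae_of_all _ fun p => by rw [Real.norm_eq_abs]; exact hC _)
  have h3 : ∫ m, f m ∂(mu c k) =
      ∫ p, f (upd j l p.2 p.1) ∂((mu c k).prod (nu c)) := by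
    rw [← (resample_mp hc j l).map_eq,
      integral_map (upd_meas j l).aemeasurable hf.aestronglyMeasurable,
      (resample_mp hc j l).map_eq]
  rw [h3]
  exact integral_prod _ h2

end Pool.Agent.Helper95.EXG
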