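import Pool.Agent.Helper95.EXG.G1

/-! Project EX, module Y, piece EXY-3: density of `mu c k`, identification with the Gaussian framework. -/

set_option autoImplicit false

namespace Pool.Agent.Helper95.EXG

open Pool.Agent.Helper87.EX MeasureTheory Complex Filter
open scoped Topology ENNReal

/-- Product of measures with densities (finite product). Proof: `Measure.pi_eq`; on a box,
`withDensity_apply`, the indicator of the box times the product of the densities is the product of the
`(s i).indicator (f i)`, and the lintegral of a product of functions of one variable over `Measure.pi`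
is the product of the lintegrals (for real valued functions this is `integral_fintype_prod_eq_prod`;
for `ℝ≥0∞` use induction, or the real version as all densities here are `ofReal` of integrable
functions, or `lintegral_prod_eq_prod_lintegral_of_indepFun`). -/
theorem pi_withDensity {ι : Type*} [Fintype ι] {α : ι → Type*}
    [∀ i, MeasurableSpace (α i)] (μ : ∀ i, Measure (α i)) [∀ i, SigmaFinite (μ i)]
    (f : ∀ i, α i → ℝ) (hf : ∀ i x, 0 ≤ f i x) (hi : ∀ i, Integrable (f i) (μ i))
    (hm : ∀ i, Measurable (f i)) :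
    Measure.pi (fun i => (μ i).withDensity (fun x => ENNReal.ofReal (f i x)))
      = (Measure.pi μ).withDensity (fun x => ENNReal.ofReal (∏ i, f i (x i))) := by
  classical
  have hfin : ∀ i, IsFiniteMeasure ((μ i).withDensity (fun x => ENNReal.ofReal (f i x))) :=
    fun i => isFiniteMeasure_withDensity_ofReal (hi i).2
  refine Measure.pi_eq fun s hs => ?_
  rw [withDensity_apply _ (MeasurableSet.univ_pi hs), Measure.restrict_pi_pi]
  have h1 : Integrable (fun x : ∀ i, α i => ∏ i, f i (x i))
      (Measure.pi fun i => (μ i).restrict (s i)) :=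
    Integrable.fintype_prod_dep fun i => (hi i).mono_measure Measure.restrict_le_self
  rw [← ofReal_integral_eq_lintegral_ofReal h1
    (Eventually.of_forall fun x => Finset.prod_nonneg fun i _ => hf i (x i)),
    integral_fintype_prod_eq_prod, ENNReal.ofReal_prod_of_nonneg
      (fun i _ => integral_nonneg (hf i))]
  refine Finset.prod_congr rfl fun i _ => ?_
  rw [withDensity_apply _ (hs i), ← ofReal_integral_eq_lintegral_ofReal
    ((hi i).mono_measure Measure.restrict_le_self) (Eventually.of_forall (hf i))]

private lemma int_of_fin {α : Type*} [MeasurableSpace α] (μ : Measure α) (f : α → ℝ)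
    (hf : ∀ x, 0 ≤ f x) (hm : Measurable f)
    (h : IsFiniteMeasure (μ.withDensity (fun x => ENNReal.ofReal (f x)))) : Integrable f μ := by
  refine ⟨hm.aestronglyMeasurable, ?_⟩
  rw [hasFiniteIntegral_iff_ofReal (Filter.Eventually.of_forall hf)]
  have h1 := h.measure_univ_lt_top
  rwa [withDensity_apply _ MeasurableSet.univ, Measure.restrict_univ] at h1

/-- Density of `nuE c`. Proof: `pi_withDensity` twice (`Fin 3`, then `Fin 1`), `volume_pi`. -/
theorem nuE_density {c : ℝ} (hc : 0 < c) :
    nuE c = (volume : Measure (E 1)).withDensity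
      (fun m => ENNReal.ofReal ((c / Real.pi) ^ 3 * Real.exp (-c * q m))) := by
  have hcp : 0 ≤ c / Real.pi := div_nonneg hc.le Real.pi_pos.le
  have hm0 : Measurable (fun z : ℂ => c / Real.pi * Real.exp (-c * Complex.normSq z)) := by
    have : Measurable (fun z : ℂ => Complex.normSq z) := Complex.continuous_normSq.measurable
    fun_prop
  have hf0 : ∀ z : ℂ, 0 ≤ c / Real.pi * Real.exp (-c * Complex.normSq z) := fun z =>
    mul_nonneg hcp (Real.exp_pos _).le
  have hpr := nu_prob hc
  have hi0 : Integrable (fun z : ℂ => c / Real.pi * Real.exp (-c * Complex.normSq z)) volume :=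
    int_of_fin _ _ hf0 hm0 (by
      have : IsProbabilityMeasure (nu c) := hpr
      exact (inferInstance : IsFiniteMeasure (nu c)))
  have h3 := pi_withDensity (ι := Fin 3) (α := fun _ => ℂ) (fun _ => (volume : Measure ℂ))
    (fun _ z => c / Real.pi * Real.exp (-c * Complex.normSq z)) (fun _ => hf0) (fun _ => hi0)
    (fun _ => hm0)
  have hm1 : Measurable (fun x : Fin 3 → ℂ =>
      ∏ i, (c / Real.pi * Real.exp (-c * Complex.normSq (x i)))) :=
    Finset.measurable_prod _ (fun i _ => hm0.comp (measurable_pi_apply i))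
  have hf1 : ∀ x : Fin 3 → ℂ, 0 ≤ ∏ i, (c / Real.pi * Real.exp (-c * Complex.normSq (x i))) :=
    fun x => Finset.prod_nonneg (fun i _ => hf0 _)
  have hi1 : Integrable (fun x : Fin 3 → ℂ =>
      ∏ i, (c / Real.pi * Real.exp (-c * Complex.normSq (x i))))
      (Measure.pi (fun _ : Fin 3 => (volume : Measure ℂ))) :=
    int_of_fin _ _ hf1 hm1 (by
      rw [← h3]
      have : IsProbabilityMeasure (nu c) := hpr
      exact (inferInstance : IsFiniteMeasure (Measure.pi (fun _ : Fin 3 => nu c))))
  have h1 := pi_withDensity (ι := Fin 1) (α := fun _ => Fin 3 → ℂ)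
    (fun _ => Measure.pi (fun _ : Fin 3 => (volume : Measure ℂ)))
    (fun _ x => ∏ i, (c / Real.pi * Real.exp (-c * Complex.normSq (x i))))
    (fun _ => hf1) (fun _ => hi1) (fun _ => hm1)
  have e1 : nuE c = Measure.pi (fun _ : Fin 1 =>
      (Measure.pi (fun _ : Fin 3 => (volume : Measure ℂ))).withDensity (fun x =>
        ENNReal.ofReal (∏ i, (c / Real.pi * Real.exp (-c * Complex.normSq (x i)))))) := by
    rw [← h3]; rfl
  rw [e1, h1]
  have e2 : (fun m : E 1 => ENNReal.ofReal ((c / Real.pi) ^ 3 * Real.exp (-c * q m))) =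
      fun x : Fin 1 → Fin 3 → ℂ =>
        ENNReal.ofReal (∏ j, ∏ i, (c / Real.pi * Real.exp (-c * Complex.normSq (x j i)))) := by
    funext m
    congr 1
    simp only [q, Finset.prod_mul_distrib, Finset.prod_const, Finset.card_univ, Fintype.card_fin,
      ← Real.exp_sum, Finset.mul_sum, pow_one]
  rw [e2]
  rfl

private lemma q_meas (n : ℕ) : Measurable (fun m : E n => q m) := by
  have : Continuous (fun m : E n => q m) := by
    unfold q
    refine continuous_finset_sum _ (fun j _ => continuous_finset_sum _ (fun i _ => ?_))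
    exact Complex.continuous_normSq.comp ((continuous_apply i).comp (continuous_apply j))
  exact this.measurable

/-- Density of `mu c k`. Proof: `pi_withDensity`, `nuE_density`, `exp_q_int` (module C) for the
integrability, `Finset.prod_mul_distrib`, `Real.exp_sum`. -/
theorem mu_density {c : ℝ} (hc : 0 < c) (k : ℕ) :
    mu c k = (volume : Measure (Fin k → E 1)).withDensity
      (fun m => ENNReal.ofReal ((c / Real.pi) ^ (3 * k) * Real.exp (-c * ∑ i, q (m i)))) := by
  have hcp : 0 ≤ c / Real.pi := div_nonneg hc.le Real.pi_pos.le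
  have hm0 : Measurable (fun m : E 1 => (c / Real.pi) ^ 3 * Real.exp (-c * q m)) := by
    have := q_meas 1
    fun_prop
  have h1 := pi_withDensity (ι := Fin k) (α := fun _ => E 1) (fun _ => (volume : Measure (E 1)))
    (fun _ m => (c / Real.pi) ^ 3 * Real.exp (-c * q m))
    (fun _ m => mul_nonneg (pow_nonneg hcp 3) (Real.exp_pos _).le)
    (fun _ => (exp_q_int hc).const_mul _) (fun _ => hm0)
  have e1 : mu c k = Measure.pi (fun _ : Fin k => (volume : Measure (E 1)).withDensity
      (fun m => ENNReal.ofReal ((c / Real.pi) ^ 3 * Real.exp (-c * q m)))) := by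
    rw [← nuE_density hc]; rfl
  rw [e1, h1]
  have e2 : (fun m : Fin k → E 1 =>
      ENNReal.ofReal ((c / Real.pi) ^ (3 * k) * Real.exp (-c * ∑ i, q (m i)))) =
      fun x : Fin k → E 1 =>
        ENNReal.ofReal (∏ i, ((c / Real.pi) ^ 3 * Real.exp (-c * q (x i)))) := by
    funext m
    congr 1
    simp only [Finset.prod_mul_distrib, Finset.prod_const, Finset.card_univ, Fintype.card_fin,
      ← Real.exp_sum, Finset.mul_sum, ← pow_mul]
  rw [e2]
  rfl

private lemma g3c_meas_q {k : ℕ} (c : ℝ) :
    Measurable (fun m : Fin k → E 1 => Real.exp (-c * ∑ i, q (m i))) := by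
  unfold q
  fun_prop

private lemma g3c_meas_q1 : Measurable (fun m : E 1 => Real.exp (-q m)) := by
  unfold q
  fun_prop

/-- The standard Gaussian measure of module C. Proof: both are probability measures (`gam_prob`,
`nuE_prob`) whose densities `exp (-q m) / Z 1` and `π^(-3) exp (-q m)` are proportional
(`withDensity_const_mul` / `withDensity_smul`), evaluate at `univ`. -/
theorem gam_eq : gam 1 = nuE 1 := by
  have h1 := gam_prob 1
  have h2 : IsProbabilityMeasure (nuE 1) := nuE_prob one_pos
  have hm : Measurable (fun m : E 1 => ENNReal.ofReal (Real.exp (-q m))) :=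
    g3c_meas_q1.ennreal_ofReal
  have e1 : gam 1 = ENNReal.ofReal (1 / Z 1) •
      (volume : Measure (E 1)).withDensity (fun m => ENNReal.ofReal (Real.exp (-q m))) := by
    unfold gam rho
    rw [← withDensity_smul _ hm]
    congr 1
    funext m
    simp only [Pi.smul_apply, smul_eq_mul]
    rw [← ENNReal.ofReal_mul (by have := Z_pos 1; positivity)]
    congr 1
    ring
  have e2 : nuE 1 = ENNReal.ofReal ((1 / Real.pi) ^ 3) •
      (volume : Measure (E 1)).withDensity (fun m => ENNReal.ofReal (Real.exp (-q m))) := by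
    rw [nuE_density one_pos, ← withDensity_smul _ hm]
    congr 1
    funext m
    simp only [Pi.smul_apply, smul_eq_mul]
    rw [← ENNReal.ofReal_mul (by positivity)]
    congr 1
    simp
  have u1 : gam 1 Set.univ = 1 := measure_univ
  have u2 : nuE 1 Set.univ = 1 := measure_univ
  rw [e1, Measure.smul_apply, smul_eq_mul] at u1
  rw [e2, Measure.smul_apply, smul_eq_mul] at u2
  set W := ((volume : Measure (E 1)).withDensity
    (fun m => ENNReal.ofReal (Real.exp (-q m)))) Set.univ with hW
  have hW0 : W ≠ 0 := by rintro h; rw [h, mul_zero] at u1; exact zero_ne_one u1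
  have hWt : W ≠ ⊤ := by
    rintro h
    rw [h, ENNReal.mul_top (by simpa using Z_pos 1)] at u1
    exact ENNReal.top_ne_one u1
  have hc : ENNReal.ofReal (1 / Z 1) = ENNReal.ofReal ((1 / Real.pi) ^ 3) :=
    (ENNReal.mul_left_inj hW0 hWt).1 (u1.trans u2.symm)
  rw [e1, e2, hc]

theorem PP_eq (k : ℕ) : PP k = mu 1 k := by
  unfold PP mu
  rw [gam_eq]

theorem PP_prob (k : ℕ) : IsProbabilityMeasure (PP k) := by
  rw [PP_eq]
  exact mu_prob one_pos k

/-- lintegral against `mu c k` (`lintegral_withDensity_eq_lintegral_mul`). -/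
theorem lintegral_mu {c : ℝ} (hc : 0 < c) (k : ℕ) (f : (Fin k → E 1) → ℝ≥0∞) (hf : Measurable f) :
    ∫⁻ m, f m ∂(mu c k) = ENNReal.ofReal ((c / Real.pi) ^ (3 * k)) *
      ∫⁻ m : Fin k → E 1, f m * ENNReal.ofReal (Real.exp (-c * ∑ i, q (m i))) := by
  have hme : Measurable (fun m : Fin k → E 1 => ENNReal.ofReal (Real.exp (-c * ∑ i, q (m i)))) :=
    (g3c_meas_q c).ennreal_ofReal
  have hmd : Measurable (fun m : Fin k → E 1 =>
      ENNReal.ofReal ((c / Real.pi) ^ (3 * k) * Real.exp (-c * ∑ i, q (m i)))) :=
    (measurable_const.mul (g3c_meas_q c)).ennreal_ofReal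
  rw [mu_density hc, lintegral_withDensity_eq_lintegral_mul _ hmd hf,
    ← lintegral_const_mul (ENNReal.ofReal ((c / Real.pi) ^ (3 * k)))
      (f := fun m : Fin k → E 1 => f m * ENNReal.ofReal (Real.exp (-c * ∑ i, q (m i)))) (hf.mul hme)]
  refine lintegral_congr fun m => ?_
  simp only [Pi.mul_apply]
  rw [ENNReal.ofReal_mul (by positivity)]
  ring

/-- null sets of `mu c k` and of the Lebesgue measure are the same (`ae_withDensity_iff`). -/
theorem ae_mu_iff {c : ℝ} (hc : 0 < c) (k : ℕ) (p : (Fin k → E 1) → Prop) :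
    (∀ᵐ m ∂(mu c k), p m) ↔ ∀ᵐ m : Fin k → E 1, p m := by
  have hmd : Measurable (fun m : Fin k → E 1 =>
      ENNReal.ofReal ((c / Real.pi) ^ (3 * k) * Real.exp (-c * ∑ i, q (m i)))) :=
    (measurable_const.mul (g3c_meas_q c)).ennreal_ofReal
  rw [mu_density hc, ae_withDensity_iff hmd]
  refine eventually_congr (Eventually.of_forall fun m => ?_)
  have : ENNReal.ofReal ((c / Real.pi) ^ (3 * k) * Real.exp (-c * ∑ i, q (m i))) ≠ 0 := by
    have h : 0 < (c / Real.pi) ^ (3 * k) * Real.exp (-c * ∑ i, q (m i)) := by positivity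
    simpa using h
  constructor
  · intro h; exact h this
  · intro h _; exact h

end Pool.Agent.Helper95.EXG
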