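import Pool.Agent.Helper95.EXG.G1

/-! Project EX, module Y, piece EXY-4: the one variable estimate. -/

set_option autoImplicit false

namespace Pool.Agent.Helper95.EXG

open Pool.Agent.Helper87.EX MeasureTheory Complex Filter
open scoped Topology ENNReal

private lemma h78_int : ∫⁻ w : ℂ, ENNReal.ofReal (‖w‖ ^ (-(1 / 2) : ℝ) *
    Real.exp (-1 * ‖w‖ ^ (2 : ℝ))) < ∞ := by
  have h := Complex.integral_rpow_mul_exp_neg_mul_rpow (p := 2) (q := -(1 / 2)) (b := 1)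
    (by norm_num) (by norm_num) (by norm_num)
  have hne : ∫ x : ℂ, ‖x‖ ^ (-(1 / 2) : ℝ) * Real.exp (-1 * ‖x‖ ^ (2 : ℝ)) ≠ 0 := by
    rw [h]
    have h1 : 0 < Real.Gamma ((-(1 / 2) + 2) / 2 : ℝ) := Real.Gamma_pos_of_pos (by norm_num)
    positivity
  have hint : Integrable (fun x : ℂ => ‖x‖ ^ (-(1 / 2) : ℝ) * Real.exp (-1 * ‖x‖ ^ (2 : ℝ))) := by
    by_contra hc
    exact hne (integral_undef hc)
  exact hint.lintegral_lt_top

private lemma h78_pt {w : ℂ} (hw : w ≠ 0) (h1 : ‖w‖ ≤ 1) :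
    ‖w‖ₑ ^ (-(1 / 2) : ℝ) ≤ ENNReal.ofReal (Real.exp 1) *
      ENNReal.ofReal (‖w‖ ^ (-(1 / 2) : ℝ) * Real.exp (-1 * ‖w‖ ^ (2 : ℝ))) := by
  have h0 : 0 < ‖w‖ := norm_pos_iff.mpr hw
  rw [← ENNReal.ofReal_mul (Real.exp_pos _).le, ← ofReal_norm,
    ENNReal.ofReal_rpow_of_pos h0]
  apply ENNReal.ofReal_le_ofReal
  have h2 : ‖w‖ ^ (2 : ℝ) ≤ 1 := Real.rpow_le_one h0.le h1 (by norm_num)
  have h3 : 1 ≤ Real.exp 1 * Real.exp (-1 * ‖w‖ ^ (2 : ℝ)) := by
    rw [← Real.exp_add]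
    apply Real.one_le_exp
    linarith
  have h4 : 0 ≤ ‖w‖ ^ (-(1 / 2) : ℝ) := by positivity
  nlinarith [mul_le_mul_of_nonneg_left h3 h4]

/-- `E |z + b|^(-1/2)` is bounded uniformly in `b`. Proof: split at `|z + b| = 1`: the integrand is
`<= 1` where `|z + b| >= 1` (contribution at most `nu c univ = 1`), and where `|z + b| <= 1` use the
density `<= c / π` and translation invariance of the Lebesgue measure:
`(c/π) ∫_{|w| <= 1} |w|^(-1/2) <= (c/π) e ∫ |w|^(-1/2) exp (-|w|^2)`, which is finite by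
`Complex.integral_rpow_mul_exp_neg_mul_rpow` (q = -1/2, p = 2, b = 1: the integral is a nonzero number,
hence the function is integrable, `integral_undef`) . Convert `‖w‖ₑ ^ (-(1/2))` to
`ENNReal.ofReal (‖w‖ ^ (-(1/2)))` for `w ≠ 0` (a.e.; `{0}` is a null set). -/
theorem one_var_shift {c : ℝ} (hc : 0 < c) : ∃ C : ℝ≥0∞, C ≠ ∞ ∧ 1 ≤ C ∧ ∀ b : ℂ,
    ∫⁻ z, ‖z + b‖ₑ ^ (-(1 / 2) : ℝ) ∂(nu c) ≤ C := by
  set D : ℝ≥0∞ := ENNReal.ofReal (c / Real.pi) with hD
  set φ : ℂ → ℝ≥0∞ := fun w => ENNReal.ofReal (‖w‖ ^ (-(1 / 2) : ℝ) *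
    Real.exp (-1 * ‖w‖ ^ (2 : ℝ))) with hφ
  have hφm : Measurable φ := by
    apply ENNReal.measurable_ofReal.comp
    fun_prop
  set f : ℂ → ℝ≥0∞ := fun z => ENNReal.ofReal (c / Real.pi * Real.exp (-c * Complex.normSq z))
    with hf
  have hfm : Measurable f := by
    apply ENNReal.measurable_ofReal.comp
    have : Measurable fun z : ℂ => Complex.normSq z := Complex.continuous_normSq.measurable
    fun_prop
  have hf1 : ∫⁻ z, f z = 1 := by
    have h1 := (nu_prob hc).measure_univ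
    rwa [nu, withDensity_apply _ MeasurableSet.univ, Measure.restrict_univ] at h1
  refine ⟨1 + D * (ENNReal.ofReal (Real.exp 1) * ∫⁻ w, φ w), ?_, le_self_add, fun b => ?_⟩
  · have h1 : ∫⁻ w, φ w < ∞ := h78_int
    exact ENNReal.add_ne_top.mpr ⟨ENNReal.one_ne_top, ENNReal.mul_ne_top ENNReal.ofReal_ne_top
      (ENNReal.mul_ne_top ENNReal.ofReal_ne_top h1.ne)⟩
  · have hgm : Measurable fun z : ℂ => ‖z + b‖ₑ ^ (-(1 / 2) : ℝ) := by fun_prop
    rw [nu, lintegral_withDensity_eq_lintegral_mul _ hfm hgm]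
    have hae : ∀ᵐ z : ℂ, (f * fun z : ℂ => ‖z + b‖ₑ ^ (-(1 / 2) : ℝ)) z ≤
        f z + D * (ENNReal.ofReal (Real.exp 1) * φ (z + b)) := by
      have hne : ∀ᵐ z : ℂ, z ≠ -b := by
        simp [ae_iff, measure_singleton]
      filter_upwards [hne] with z hz
      have hz' : z + b ≠ 0 := fun h => hz (eq_neg_of_add_eq_zero_left h)
      simp only [Pi.mul_apply]
      rcases le_total ‖z + b‖ 1 with h1 | h1
      · refine le_trans ?_ le_add_self
        apply mul_le_mul' ?_ (h78_pt hz' h1)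
        rw [hf, hD]
        apply ENNReal.ofReal_le_ofReal
        have h2 : Real.exp (-c * Complex.normSq z) ≤ 1 := by
          apply Real.exp_le_one_iff.mpr
          have := Complex.normSq_nonneg z
          nlinarith
        have h3 : 0 ≤ c / Real.pi := by positivity
        exact mul_le_of_le_one_right h3 h2
      · refine le_trans ?_ le_self_add
        apply mul_le_of_le_one_right'
        rw [← ofReal_norm, ENNReal.ofReal_rpow_of_pos (norm_pos_iff.mpr hz')]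
        rw [← ENNReal.ofReal_one]
        apply ENNReal.ofReal_le_ofReal
        exact Real.rpow_le_one_of_one_le_of_nonpos h1 (by norm_num)
    refine (lintegral_mono_ae hae).trans ?_
    rw [lintegral_add_left hfm, hf1, lintegral_const_mul' _ _ ENNReal.ofReal_ne_top,
      lintegral_const_mul' _ _ ENNReal.ofReal_ne_top, lintegral_add_right_eq_self]

/-- Proof: for `β = 0` the right side is `C * ∞ = ∞` (`ENNReal.zero_rpow_of_neg`, `1 ≤ C`); for
`β ≠ 0`, `‖z * β + γ‖ₑ ^ (-(1/2)) = ‖β‖ₑ ^ (-(1/2)) * ‖z + γ / β‖ₑ ^ (-(1/2))`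
(`ENNReal.mul_rpow_of_ne_top`-type lemmas; also for `z + γ / β = 0`, where both sides are `∞`) and
`one_var_shift`. -/
theorem one_var {c : ℝ} (hc : 0 < c) : ∃ C : ℝ≥0∞, C ≠ ∞ ∧ 1 ≤ C ∧ ∀ β γ : ℂ,
    ∫⁻ z, ‖z * β + γ‖ₑ ^ (-(1 / 2) : ℝ) ∂(nu c) ≤ C * ‖β‖ₑ ^ (-(1 / 2) : ℝ) := by
  obtain ⟨C, hC, hC1, h⟩ := one_var_shift hc
  refine ⟨C, hC, hC1, fun β γ => ?_⟩
  by_cases hβ : β = 0
  · subst hβ
    rw [enorm_zero, ENNReal.zero_rpow_of_neg (by norm_num), ENNReal.mul_top]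
    · exact le_top
    · exact (lt_of_lt_of_le zero_lt_one hC1).ne'
  · have e : ∀ z : ℂ, ‖z * β + γ‖ₑ ^ (-(1 / 2) : ℝ) =
        ‖z + γ / β‖ₑ ^ (-(1 / 2) : ℝ) * ‖β‖ₑ ^ (-(1 / 2) : ℝ) := by
      intro z
      have h1 : z * β + γ = (z + γ / β) * β := by
        field_simp
      rw [h1, enorm_mul, ENNReal.mul_rpow_of_ne_top enorm_ne_top enorm_ne_top]
    simp_rw [e]
    rw [lintegral_mul_const']
    · exact mul_le_mul' (h _) le_rfl
    · intro h1
      rw [ENNReal.rpow_eq_top_iff] at h1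
      rcases h1 with h1 | h1
      · exact hβ (by simpa using h1.1)
      · exact enorm_ne_top h1.1

/-- Moments of one coordinate: `E |z|^n < ∞` for `n <= 3`. Proof: `‖z‖^3 <= C exp (c/2 ‖z‖^2)` or
`Complex.integral_rpow_mul_exp_neg_mul_rpow` with `q = 3`. -/
theorem nu_mom {c : ℝ} (hc : 0 < c) : ∫⁻ z, ‖z‖ₑ ^ (3 : ℕ) ∂(nu c) < ∞ := by
  have hint : Integrable (fun z : ℂ => ‖z‖ ^ (3 : ℝ) * Real.exp (-c * ‖z‖ ^ (2 : ℝ))) volume := by
    by_contra hn
    have h1 := Complex.integral_rpow_mul_exp_neg_mul_rpow (p := 2) (q := 3) (b := c)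
      (by norm_num) (by norm_num) hc
    rw [integral_undef hn] at h1
    have h2 : 0 < (2 * Real.pi / 2) * c ^ (-((3 : ℝ) + 2) / 2) * Real.Gamma (((3 : ℝ) + 2) / 2) := by
      have h3 : 0 < Real.Gamma (((3 : ℝ) + 2) / 2) := Real.Gamma_pos_of_pos (by norm_num)
      have h4 : 0 < c ^ (-((3 : ℝ) + 2) / 2) := Real.rpow_pos_of_pos hc _
      have h5 := Real.pi_pos
      positivity
    exact absurd h1.symm h2.ne'
  have hint2 := hint.const_mul (c / Real.pi)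
  have hm : Measurable (fun z : ℂ => ENNReal.ofReal (c / Real.pi * Real.exp (-c * Complex.normSq z))) := by
    have : Continuous (fun z : ℂ => c / Real.pi * Real.exp (-c * Complex.normSq z)) := by
      have := Complex.continuous_normSq
      fun_prop
    exact this.measurable.ennreal_ofReal
  have hm2 : Measurable (fun z : ℂ => ‖z‖ₑ ^ (3 : ℕ)) := by fun_prop
  unfold nu
  rw [lintegral_withDensity_eq_lintegral_mul _ hm hm2]
  have hfin := hint2.hasFiniteIntegral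
  refine lt_of_le_of_lt (le_of_eq ?_) hfin
  refine lintegral_congr fun z => ?_
  have hc' : 0 ≤ c / Real.pi := div_nonneg hc.le Real.pi_pos.le
  have e1 : (3 : ℝ) = ((3 : ℕ) : ℝ) := by norm_num
  have e2 : (2 : ℝ) = ((2 : ℕ) : ℝ) := by norm_num
  have h1 : ‖z‖ ^ (3 : ℝ) = ‖z‖ ^ (3 : ℕ) := by rw [e1, Real.rpow_natCast]
  have h2 : ‖z‖ ^ (2 : ℝ) = Complex.normSq z := by
    rw [e2, Real.rpow_natCast, Complex.normSq_eq_norm_sq]
  rw [Pi.mul_apply]
  beta_reduce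
  rw [h1, h2, Real.enorm_eq_ofReal (by positivity), ← ofReal_norm,
    ← ENNReal.ofReal_pow (norm_nonneg z), ← ENNReal.ofReal_mul (by positivity)]
  congr 1
  ring

/-- For all `z` (for `z = 0` the left side is `0` as `Real.log 0 = 0`):
`|log x| <= 2 x^(-1/2) + x` for `x > 0` (`log x <= x`, `-log x = 2 log (x^(-1/2)) <= 2 x^(-1/2)`),
converted to `ℝ≥0∞`. -/
theorem log_enorm_le (z : ℂ) :
    ENNReal.ofReal |Real.log ‖z‖| ≤ 2 * ‖z‖ₑ ^ (-(1 / 2) : ℝ) + ‖z‖ₑ := by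
  rcases eq_or_ne z 0 with rfl | hz
  · simp
  have hx : 0 < ‖z‖ := norm_pos_iff.mpr hz
  have key : |Real.log ‖z‖| ≤ 2 * ‖z‖ ^ (-(1 / 2) : ℝ) + ‖z‖ := by
    have hp : 0 < ‖z‖ ^ (-(1 / 2) : ℝ) := Real.rpow_pos_of_pos hx _
    have h1 : Real.log ‖z‖ ≤ ‖z‖ := by
      have := Real.log_le_sub_one_of_pos hx
      linarith
    have h2 : -Real.log ‖z‖ ≤ 2 * ‖z‖ ^ (-(1 / 2) : ℝ) := by
      have h3 := Real.log_le_sub_one_of_pos hp
      rw [Real.log_rpow hx] at h3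
      linarith
    rw [abs_le]
    constructor <;> linarith
  have e1 : ‖z‖ₑ = ENNReal.ofReal ‖z‖ := (ofReal_norm z).symm
  rw [e1, ENNReal.ofReal_rpow_of_pos hx]
  have e2 : (2 : ℝ≥0∞) = ENNReal.ofReal 2 := by simp
  rw [e2, ← ENNReal.ofReal_mul (by norm_num), ← ENNReal.ofReal_add (by positivity) hx.le]
  exact ENNReal.ofReal_le_ofReal key

end Pool.Agent.Helper95.EXG
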