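import Pool.Agent.Helper95.EXG.G2
import Pool.Agent.Helper95.EXG.G3
import Pool.Agent.Helper95.EXG.G4

/-! Project EX, module Y, piece EXY-5: negative moments and moments for `mu c k`. -/

set_option autoImplicit false

namespace Pool.Agent.Helper95.EXG

open Pool.Agent.Helper87.EX MeasureTheory Complex Filter
open scoped Topology ENNReal

/-- Proof: `resample`, `one_var` inside, `lintegral_mono`, `lintegral_const_mul'` (`C ≠ ∞`). -/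
theorem aff_res {c : ℝ} (hc : 0 < c) : ∃ C : ℝ≥0∞, C ≠ ∞ ∧ ∀ (k : ℕ) (j : Fin k) (l : Fin 3)
    (X β γ : (Fin k → E 1) → ℂ), Measurable X → (∀ m z, X (upd j l z m) = z * β m + γ m) →
    ∫⁻ m, ‖X m‖ₑ ^ (-(1 / 2) : ℝ) ∂(mu c k) ≤ C * ∫⁻ m, ‖β m‖ₑ ^ (-(1 / 2) : ℝ) ∂(mu c k) := by
  obtain ⟨C, hC, _, h⟩ := one_var hc
  refine ⟨C, hC, ?_⟩
  intro k j l X β γ hX hXl
  rw [resample hc j l (fun m => ‖X m‖ₑ ^ (-(1 / 2) : ℝ)) (hX.enorm.pow_const _)]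
  calc ∫⁻ m, ∫⁻ z, ‖X (upd j l z m)‖ₑ ^ (-(1 / 2) : ℝ) ∂(nu c) ∂(mu c k)
      = ∫⁻ m, ∫⁻ z, ‖z * β m + γ m‖ₑ ^ (-(1 / 2) : ℝ) ∂(nu c) ∂(mu c k) := by
        simp only [hXl]
    _ ≤ ∫⁻ m, C * ‖β m‖ₑ ^ (-(1 / 2) : ℝ) ∂(mu c k) := lintegral_mono fun m => h _ _
    _ = C * ∫⁻ m, ‖β m‖ₑ ^ (-(1 / 2) : ℝ) ∂(mu c k) := lintegral_const_mul' _ _ hC

private lemma upd_ne_aux {k : ℕ} {j a : Fin k} (h : a ≠ j) (l : Fin 3) (z : ℂ)
    (m : Fin k → E 1) : upd j l z m a = m a := by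
  unfold upd
  rw [Function.update_of_ne h]

private lemma upd_self_aux {k : ℕ} (j : Fin k) (l : Fin 3) (z : ℂ)
    (m : Fin k → E 1) (o : Fin 1) : upd j l z m j o = Function.update (m j 0) l z := by
  unfold upd
  rw [Function.update_self]

private lemma coord_meas_aux {k : ℕ} (a : Fin k) (l : Fin 3) :
    Measurable (fun m : Fin k → E 1 => m a 0 l) :=
  (measurable_pi_apply l).comp ((measurable_pi_apply 0).comp (measurable_pi_apply a))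

private lemma b2_meas_aux {k : ℕ} (a b : Fin k) :
    Measurable (fun m : Fin k → E 1 => b2 (m a 0) (m b 0)) := by
  unfold b2
  exact ((coord_meas_aux a 1).mul (coord_meas_aux b 2)).sub
    ((coord_meas_aux a 2).mul (coord_meas_aux b 1))

/-- one coordinate -/
private lemma coord_neg_aux {c : ℝ} (hc : 0 < c) : ∃ C : ℝ≥0∞, C ≠ ∞ ∧ ∀ (k : ℕ) (a : Fin k)
    (l : Fin 3), ∫⁻ m : Fin k → E 1, ‖m a 0 l‖ₑ ^ (-(1 / 2) : ℝ) ∂(mu c k) ≤ C := by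
  obtain ⟨C, hC, h⟩ := aff_res hc
  refine ⟨C, hC, ?_⟩
  intro k a l
  haveI := mu_prob hc k
  have h1 := h k a l (fun m => m a 0 l) (fun _ => 1) (fun _ => 0) (coord_meas_aux a l)
    (by intro m z; simp only [upd_self_aux, Function.update_self]; ring)
  refine h1.trans ?_
  simp

/-- the bracket -/
private lemma b2_neg_aux {c : ℝ} (hc : 0 < c) : ∃ C : ℝ≥0∞, C ≠ ∞ ∧ ∀ (k : ℕ) (a b : Fin k),
    a ≠ b → ∫⁻ m : Fin k → E 1, ‖b2 (m a 0) (m b 0)‖ₑ ^ (-(1 / 2) : ℝ) ∂(mu c k) ≤ C := by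
  obtain ⟨C, hC, h⟩ := aff_res hc
  obtain ⟨D, hD, h'⟩ := coord_neg_aux hc
  refine ⟨C * D, ENNReal.mul_ne_top hC hD, ?_⟩
  intro k a b hab
  have h1 := h k b 2 (fun m => b2 (m a 0) (m b 0)) (fun m => m a 0 1)
    (fun m => -(m a 0 2 * m b 0 1)) (b2_meas_aux a b) (by
      intro m z
      simp only [b2, upd_self_aux, upd_ne_aux hab, Function.update_self]
      rw [Function.update_of_ne (by decide)]
      ring)
  exact h1.trans (mul_le_mul_right (h' k a 1) C)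

/-- Proof: `aff_res` three times. First with `j = e`, `l = 0`, `β m = b2 (m a 0) (m b 0)`,
`γ m = X (upd e 0 0 m)`; then for `b2 (m a 0) (m b 0) = m a 0 1 * m b 0 2 - m a 0 2 * m b 0 1` with `j = b`,
`l = 2`, `β m = m a 0 1`, `γ m = - m a 0 2 * m b 0 1`; then for `m a 0 1` with `j = a`, `l = 1`, `β = 1`,
`γ = 0`; `∫⁻ ‖1‖ₑ ^ (-(1/2)) = 1`. So the constant is `C^3`. -/
theorem neg_mom {c : ℝ} (hc : 0 < c) (k : ℕ) : ∃ C : ℝ≥0∞, C ≠ ∞ ∧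
    ∀ a b e : Fin k, a ≠ b → a ≠ e → b ≠ e → ∀ X : (Fin k → E 1) → ℂ, Measurable X →
    (∀ m z, X (upd e 0 z m) = z * b2 (m a 0) (m b 0) + X (upd e 0 0 m)) →
    ∫⁻ m, ‖X m‖ₑ ^ (-(1 / 2) : ℝ) ∂(mu c k) ≤ C := by
  obtain ⟨C, hC, h⟩ := aff_res hc
  obtain ⟨D, hD, h'⟩ := b2_neg_aux hc
  refine ⟨C * D, ENNReal.mul_ne_top hC hD, ?_⟩
  intro a b e hab _ _ X hX hXe
  have h1 := h k e 0 X (fun m => b2 (m a 0) (m b 0)) (fun m => X (upd e 0 0 m)) hX hXe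
  exact h1.trans (mul_le_mul_right (h' k a b hab) C)

/-- from a finite negative moment to `≠ 0` almost everywhere -/
private lemma ae_of_neg_aux {k : ℕ} {X : (Fin k → E 1) → ℂ} (hX : Measurable X)
    (h : ∫⁻ m, ‖X m‖ₑ ^ (-(1 / 2) : ℝ) ∂(mu 1 k) ≠ ∞) :
    ∀ᵐ m : Fin k → E 1, X m ≠ 0 := by
  rw [← ae_mu_iff one_pos k]
  filter_upwards [ae_lt_top (hX.enorm.pow_const _) h] with m hm h0
  rw [h0, enorm_zero, ENNReal.zero_rpow_of_neg (by norm_num)] at hm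
  exact lt_irrefl _ hm

/-- Proof: `neg_mom` with `c = 1`: the lintegral is finite, so `‖X m‖ₑ ^ (-(1/2)) < ∞` a.e.
(`ae_lt_top`), i.e. `X m ≠ 0`; `ae_mu_iff`. -/
theorem ae_ne {k : ℕ} (a b e : Fin k) (hab : a ≠ b) (hae : a ≠ e) (hbe : b ≠ e)
    (X : (Fin k → E 1) → ℂ) (hX : Measurable X)
    (h : ∀ m z, X (upd e 0 z m) = z * b2 (m a 0) (m b 0) + X (upd e 0 0 m)) :
    ∀ᵐ m : Fin k → E 1, X m ≠ 0 := by
  obtain ⟨C, hC, h'⟩ := neg_mom one_pos k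
  exact ae_of_neg_aux hX (ne_top_of_le_ne_top hC (h' a b e hab hae hbe X hX h))

/-- Same for `b2` (two applications of `aff_res`). -/
theorem ae_b2 {k : ℕ} (a b : Fin k) (hab : a ≠ b) :
    ∀ᵐ m : Fin k → E 1, b2 (m a 0) (m b 0) ≠ 0 := by
  obtain ⟨C, hC, h'⟩ := b2_neg_aux one_pos
  exact ae_of_neg_aux (b2_meas_aux a b) (ne_top_of_le_ne_top hC (h' k a b hab))

/-- Same for one coordinate (one application of `aff_res`). -/
theorem ae_coord {k : ℕ} (a : Fin k) (l : Fin 3) : ∀ᵐ m : Fin k → E 1, m a 0 l ≠ 0 := by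
  obtain ⟨C, hC, h'⟩ := coord_neg_aux one_pos
  exact ae_of_neg_aux (coord_meas_aux a l) (ne_top_of_le_ne_top hC (h' k a l))

theorem mul3_le (x y z : ℝ≥0∞) : x * y * z ≤ x ^ 3 + y ^ 3 + z ^ 3 := by
  have h : x * y * z ≤ (max x (max y z)) ^ 3 := by
    rw [pow_three, ← mul_assoc]
    exact mul_le_mul' (mul_le_mul' (le_max_left _ _) ((le_max_left _ _).trans (le_max_right _ _)))
      ((le_max_right _ _).trans (le_max_right _ _))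
  refine h.trans ?_
  rcases le_total x (max y z) with h1 | h1
  · rw [max_eq_right h1]
    rcases le_total y z with h2 | h2
    · rw [max_eq_right h2]
      exact le_add_self
    · rw [max_eq_left h2]
      exact le_add_self.trans le_self_add
  · rw [max_eq_left h1, add_assoc]
    exact le_self_add

theorem coord_mom {c : ℝ} (hc : 0 < c) {k : ℕ} (a : Fin k) (l : Fin 3) :
    ∫⁻ m, ‖m a 0 l‖ₑ ^ 3 ∂(mu c k) = ∫⁻ z, ‖z‖ₑ ^ 3 ∂(nu c) := by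
  have hmeas : Measurable (fun m : Fin k → E 1 => ‖m a 0 l‖ₑ ^ 3) := by fun_prop
  rw [resample hc a l _ hmeas]
  have h1 : ∀ (m : Fin k → E 1) (z : ℂ), ‖upd a l z m a 0 l‖ₑ ^ 3 = ‖z‖ₑ ^ 3 := by
    intro m z
    simp [upd]
  simp only [h1]
  have := mu_prob hc k
  rw [lintegral_const, measure_univ, mul_one]

/-- Products of three coordinates are integrable. Proof: `x y z <= x^3 + y^3 + z^3` for nonnegative
numbers, so it is enough that `∫⁻ ‖m a 0 l‖ₑ ^ 3 ∂(mu c k) = ∫⁻ ‖z‖ₑ ^ 3 ∂(nu c) < ∞`: `resample` with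
the coordinate `(a, l)` and `nu_mom`. -/
theorem mom3 {c : ℝ} (hc : 0 < c) (k : ℕ) (a b e : Fin k) (l l' l'' : Fin 3) :
    ∫⁻ m, ‖m a 0 l‖ₑ * ‖m b 0 l'‖ₑ * ‖m e 0 l''‖ₑ ∂(mu c k) < ∞ := by
  have hmeas : ∀ (j : Fin k) (i : Fin 3), Measurable (fun m : Fin k → E 1 => ‖m j 0 i‖ₑ ^ 3) := by
    intro j i
    fun_prop
  calc ∫⁻ m, ‖m a 0 l‖ₑ * ‖m b 0 l'‖ₑ * ‖m e 0 l''‖ₑ ∂(mu c k)
      ≤ ∫⁻ m, (‖m a 0 l‖ₑ ^ 3 + ‖m b 0 l'‖ₑ ^ 3 + ‖m e 0 l''‖ₑ ^ 3) ∂(mu c k) :=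
        lintegral_mono fun m => mul3_le _ _ _
    _ = (∫⁻ m, ‖m a 0 l‖ₑ ^ 3 ∂(mu c k)) + (∫⁻ m, ‖m b 0 l'‖ₑ ^ 3 ∂(mu c k))
        + ∫⁻ m, ‖m e 0 l''‖ₑ ^ 3 ∂(mu c k) := by
        rw [lintegral_add_right _ (hmeas e l''), lintegral_add_right _ (hmeas b l')]
    _ < ∞ := by
        rw [coord_mom hc a l, coord_mom hc b l', coord_mom hc e l'']
        have h := nu_mom hc
        exact ENNReal.add_lt_top.mpr ⟨ENNReal.add_lt_top.mpr ⟨h, h⟩, h⟩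

theorem dt_enorm_le (x y z : Fin 3 → ℂ) : ‖dt x y z‖ₑ ≤ ‖x 0‖ₑ * ‖y 1‖ₑ * ‖z 2‖ₑ
      + ‖x 0‖ₑ * ‖y 2‖ₑ * ‖z 1‖ₑ + ‖x 1‖ₑ * ‖y 0‖ₑ * ‖z 2‖ₑ + ‖x 1‖ₑ * ‖y 2‖ₑ * ‖z 0‖ₑ
      + ‖x 2‖ₑ * ‖y 0‖ₑ * ‖z 1‖ₑ + ‖x 2‖ₑ * ‖y 1‖ₑ * ‖z 0‖ₑ := by
  have e1 : dt x y z = x 0 * y 1 * z 2 + (-x 0) * y 2 * z 1 + (-x 1) * y 0 * z 2
      + x 1 * y 2 * z 0 + x 2 * y 0 * z 1 + (-x 2) * y 1 * z 0 := by
    unfold dt; ring
  have e2 : ∀ u v w : ℂ, ‖u * v * w‖ₑ = ‖u‖ₑ * ‖v‖ₑ * ‖w‖ₑ := by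
    intro u v w; rw [enorm_mul, enorm_mul]
  have e3 : ∀ u v w : ℂ, ‖(-u) * v * w‖ₑ = ‖u‖ₑ * ‖v‖ₑ * ‖w‖ₑ := by
    intro u v w; rw [enorm_mul, enorm_mul, enorm_neg]
  rw [e1, ← e2 (x 0) (y 1) (z 2), ← e3 (x 0) (y 2) (z 1), ← e3 (x 1) (y 0) (z 2),
    ← e2 (x 1) (y 2) (z 0), ← e2 (x 2) (y 0) (z 1), ← e3 (x 2) (y 1) (z 0)]
  refine (enorm_add_le _ _).trans (add_le_add ?_ le_rfl)
  refine (enorm_add_le _ _).trans (add_le_add ?_ le_rfl)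
  refine (enorm_add_le _ _).trans (add_le_add ?_ le_rfl)
  refine (enorm_add_le _ _).trans (add_le_add ?_ le_rfl)
  exact enorm_add_le _ _

theorem add_fin {X : Type*} [MeasurableSpace X] {μ : Measure X} {f g : X → ℝ≥0∞}
    (hg : Measurable g) (h1 : ∫⁻ x, f x ∂μ < ∞) (h2 : ∫⁻ x, g x ∂μ < ∞) :
    ∫⁻ x, (f x + g x) ∂μ < ∞ := by
  rw [lintegral_add_right _ hg]
  exact ENNReal.add_lt_top.mpr ⟨h1, h2⟩

theorem tri_meas {k : ℕ} (a b e : Fin k) (l l' l'' : Fin 3) : Measurable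
    (fun m : Fin k → E 1 => ‖m a 0 l‖ₑ * ‖m b 0 l'‖ₑ * ‖m e 0 l''‖ₑ) := by
  fun_prop

/-- Proof: `dt x y z` is a sum of six products of three coordinates; `enorm_add_le`, `mom3`. -/
theorem mom_dt {c : ℝ} (hc : 0 < c) (k : ℕ) (a b e : Fin k) :
    ∫⁻ m, ‖dt (m a 0) (m b 0) (m e 0)‖ₑ ∂(mu c k) < ∞ := by
  have h : ∫⁻ m, ‖dt (m a 0) (m b 0) (m e 0)‖ₑ ∂(mu c k)
      ≤ ∫⁻ m, (‖m a 0 0‖ₑ * ‖m b 0 1‖ₑ * ‖m e 0 2‖ₑ
      + ‖m a 0 0‖ₑ * ‖m b 0 2‖ₑ * ‖m e 0 1‖ₑ + ‖m a 0 1‖ₑ * ‖m b 0 0‖ₑ * ‖m e 0 2‖ₑ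
      + ‖m a 0 1‖ₑ * ‖m b 0 2‖ₑ * ‖m e 0 0‖ₑ + ‖m a 0 2‖ₑ * ‖m b 0 0‖ₑ * ‖m e 0 1‖ₑ
      + ‖m a 0 2‖ₑ * ‖m b 0 1‖ₑ * ‖m e 0 0‖ₑ) ∂(mu c k) :=
    lintegral_mono fun m => dt_enorm_le (m a 0) (m b 0) (m e 0)
  refine lt_of_le_of_lt h ?_
  refine add_fin (tri_meas a b e 2 1 0) ?_ (mom3 hc k a b e 2 1 0)
  refine add_fin (tri_meas a b e 2 0 1) ?_ (mom3 hc k a b e 2 0 1)
  refine add_fin (tri_meas a b e 1 2 0) ?_ (mom3 hc k a b e 1 2 0)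
  refine add_fin (tri_meas a b e 1 0 2) ?_ (mom3 hc k a b e 1 0 2)
  exact add_fin (tri_meas a b e 0 2 1) (mom3 hc k a b e 0 1 2) (mom3 hc k a b e 0 2 1)

/-- Proof: `log_enorm_le`, `neg_mom` (with `X m = dt (m a 0) (m b 0) (m e 0)`, whose coefficient of
`m e 0 0` is `b2 (m a 0) (m b 0)`), `mom_dt`. -/
theorem log_dt_fin {c : ℝ} (hc : 0 < c) (k : ℕ) (a b e : Fin k) (hab : a ≠ b) (hae : a ≠ e)
    (hbe : b ≠ e) :
    ∫⁻ m, ENNReal.ofReal |LL (m a 0) (m b 0) (m e 0)| ∂(mu c k) < ∞ := by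
  obtain ⟨C, hC, hb⟩ := neg_mom hc k
  have hX : Measurable (fun m : Fin k → E 1 => dt (m a 0) (m b 0) (m e 0)) := by
    unfold dt; fun_prop
  have h1 := hb a b e hab hae hbe (fun m => dt (m a 0) (m b 0) (m e 0)) hX (by
    intro m z
    have ha : ∀ z : ℂ, upd e 0 z m a = m a := fun z => Function.update_of_ne hae _ _
    have hb : ∀ z : ℂ, upd e 0 z m b = m b := fun z => Function.update_of_ne hbe _ _
    have he : ∀ z : ℂ, upd e 0 z m e 0 = Function.update (m e 0) 0 z := by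
      intro z; simp [upd]
    simp only [ha, hb, he]
    unfold dt b2
    simp
    ring)
  calc ∫⁻ m, ENNReal.ofReal |LL (m a 0) (m b 0) (m e 0)| ∂(mu c k)
      ≤ ∫⁻ m, (2 * ‖dt (m a 0) (m b 0) (m e 0)‖ₑ ^ (-(1 / 2) : ℝ)
        + ‖dt (m a 0) (m b 0) (m e 0)‖ₑ) ∂(mu c k) :=
        lintegral_mono fun m => log_enorm_le _
    _ = 2 * (∫⁻ m, ‖dt (m a 0) (m b 0) (m e 0)‖ₑ ^ (-(1 / 2) : ℝ) ∂(mu c k))
        + ∫⁻ m, ‖dt (m a 0) (m b 0) (m e 0)‖ₑ ∂(mu c k) := by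
        rw [lintegral_add_right _ hX.enorm, lintegral_const_mul' _ _ (by norm_num)]
    _ < ∞ := ENNReal.add_lt_top.mpr ⟨ENNReal.mul_lt_top (by norm_num)
        (h1.trans_lt hC.lt_top), mom_dt hc k a b e⟩

/-- `F1` is integrable against all Gaussian weights. Proof: measurability by `Psi_meas`; `Psi_le`;
`hasFiniteIntegral` by `lintegral_mu` (the constant `(c/π)^(3 k)` is positive and finite) and
`log_dt_fin` for the (finitely many) triples `i < j < k`. -/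
theorem F1_GI' : GI F1 := by
  intro c hc
  have hm : Measurable F1 := by
    refine Psi_meas.comp ?_
    fun_prop
  have hq : Measurable (fun m : Fin 5 → E 1 => Real.exp (-c * ∑ i, q (m i))) := by
    unfold q
    fun_prop
  refine ⟨(hm.mul hq).aestronglyMeasurable, ?_⟩
  obtain ⟨C, hC, hb⟩ := Psi_le
  have hLL : ∀ i j l : Fin 5, Measurable (fun m : Fin 5 → E 1 =>
      if i < j ∧ j < l then ENNReal.ofReal |LL (m i 0) (m j 0) (m l 0)| else 0) := by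
    intro i j l
    split_ifs
    · unfold LL dt
      fun_prop
    · exact measurable_const
  have hfin : ∫⁻ m, ‖F1 m‖ₑ ∂(mu c 5) < ∞ := by
    have h1 : ∀ m : Fin 5 → E 1, ‖F1 m‖ₑ ≤ ENNReal.ofReal C * ∑ i : Fin 5, ∑ j : Fin 5,
        ∑ l : Fin 5, (if i < j ∧ j < l then ENNReal.ofReal |LL (m i 0) (m j 0) (m l 0)| else 0) := by
      intro m
      rw [← ofReal_norm, Real.norm_eq_abs]
      refine (ENNReal.ofReal_le_ofReal (hb (fun i => m i 0))).trans (le_of_eq ?_)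
      rw [ENNReal.ofReal_mul hC]
      congr 1
      rw [ENNReal.ofReal_sum_of_nonneg (fun i _ => Finset.sum_nonneg fun j _ =>
        Finset.sum_nonneg fun l _ => by split_ifs <;> positivity)]
      refine Finset.sum_congr rfl fun i _ => ?_
      rw [ENNReal.ofReal_sum_of_nonneg (fun j _ =>
        Finset.sum_nonneg fun l _ => by split_ifs <;> positivity)]
      refine Finset.sum_congr rfl fun j _ => ?_
      rw [ENNReal.ofReal_sum_of_nonneg (fun l _ => by split_ifs <;> positivity)]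
      refine Finset.sum_congr rfl fun l _ => ?_
      split_ifs
      · rfl
      · simp
    refine (lintegral_mono h1).trans_lt ?_
    rw [lintegral_const_mul' _ _ ENNReal.ofReal_ne_top]
    refine ENNReal.mul_lt_top ENNReal.ofReal_lt_top ?_
    rw [lintegral_finsetSum _ (fun i _ => Finset.measurable_sum _ fun j _ =>
      Finset.measurable_sum _ fun l _ => hLL i j l)]
    refine ENNReal.sum_lt_top.mpr fun i _ => ?_
    rw [lintegral_finsetSum _ (fun j _ =>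
      Finset.measurable_sum _ fun l _ => hLL i j l)]
    refine ENNReal.sum_lt_top.mpr fun j _ => ?_
    rw [lintegral_finsetSum _ (fun l _ => hLL i j l)]
    refine ENNReal.sum_lt_top.mpr fun l _ => ?_
    split_ifs with h
    · exact log_dt_fin hc 5 i j l h.1.ne (h.1.trans h.2).ne h.2.ne
    · simp
  rw [lintegral_mu hc 5 _ hm.enorm] at hfin
  have hK : ENNReal.ofReal ((c / Real.pi) ^ (3 * 5)) ≠ 0 := by
    rw [Ne, ENNReal.ofReal_eq_zero, not_le]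
    positivity
  unfold HasFiniteIntegral
  have h2 : ∀ m : Fin 5 → E 1, ‖F1 m * Real.exp (-c * ∑ i, q (m i))‖ₑ
      = ‖F1 m‖ₑ * ENNReal.ofReal (Real.exp (-c * ∑ i, q (m i))) := by
    intro m
    rw [enorm_mul, ← ofReal_norm (Real.exp _), Real.norm_eq_abs,
      abs_of_pos (Real.exp_pos _)]
  simp only [h2]
  by_contra hcon
  rw [not_lt, top_le_iff] at hcon
  rw [hcon, ENNReal.mul_top hK] at hfin
  exact lt_irrefl _ hfin

end Pool.Agent.Helper95.EXG
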