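import Pool.Agent.Helper95.EXG.G5
import Pool.Agent.Helper95.EXG.G6

/-! Project EX, module Y, piece EXY-7: growth rates of `log |dt|`, uniformly in `L^1`. -/

set_option autoImplicit false

namespace Pool.Agent.Helper95.EXG

open Pool.Agent.Helper87.EX MeasureTheory Complex Filter
open scoped Topology ENNReal

/-- indicator of the moved vectors -/
private noncomputable def sj (i : Fin 4) (j : Fin 5) : ℝ := if (j : ℕ) ≤ (i : ℕ) then 0 else 1

private theorem al_sj (i : Fin 4) (T : ℝ) (j : Fin 5) : al i T j = Real.exp (2 * T * sj i j) := by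
  unfold al sj
  split_ifs <;> simp

private theorem de_sj (i : Fin 4) (T : ℝ) (j : Fin 5) : de i T j = Real.exp (-T * sj i j) := by
  unfold de sj
  split_ifs <;> simp

private theorem rt_sj (i : Fin 4) (a b e : Fin 5) :
    ((rt i a b e : ℝ)) = 2 * sj i e - sj i a - sj i b := by
  unfold rt sj
  split_ifs <;> norm_num

private theorem sj_mono (i : Fin 4) {a b : Fin 5} (h : a < b) : sj i a ≤ sj i b := by
  have h' : (a : ℕ) < b := h
  unfold sj
  split_ifs with h1 h2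
  · exact le_refl _
  · exact zero_le_one
  · omega
  · exact le_refl _

/-- Proof: `dt x y z = x 0 * b2 y z - y 0 * b2 x z + z 0 * b2 x y`. So the left side is
`al e de a de b w_e^0 b2(w_a, w_b) - al b de a de e w_b^0 b2(w_a, w_e) + al a de b de e w_a^0 b2(w_b, w_e)`,
`al e de a de b = exp (rt i a b e * T)`, and the quotients
`A = al b de e / (al e de b) = exp (3 T ([b > i] - [e > i]))`, `B = exp (3 T ([a > i] - [e > i]))` are `<= 1`
since `a < b < e`. Case distinction on `a <= i`, `b <= i`, `e <= i` (eight cases, four impossible):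
in each case give `A`, `B` explicitly (each is `1` or `exp (-(3 * T))`) and close by `ring` after
`Real.exp_add` (for example `exp (2 T) = exp T ^ 2`, `exp (-T) = (exp T)⁻¹`, `field_simp`). -/
theorem conf_dt (i : Fin 4) (T : ℝ) (hT : 0 ≤ T) (a b e : Fin 5) (hab : a < b) (hbe : b < e) :
    ∃ A B : ℝ, 0 ≤ A ∧ A ≤ 1 ∧ 0 ≤ B ∧ B ≤ 1 ∧ ∀ w : Fin 5 → E 1,
      dt (conf i T w a) (conf i T w b) (conf i T w e) =
        ((Real.exp (rt i a b e * T) : ℝ) : ℂ) * (w e 0 0 * b2 (w a 0) (w b 0)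
          - (A : ℂ) * (w b 0 0 * b2 (w a 0) (w e 0)) + (B : ℂ) * (w a 0 0 * b2 (w b 0) (w e 0))) := by
  refine ⟨Real.exp (3 * T * (sj i b - sj i e)), Real.exp (3 * T * (sj i a - sj i e)),
    (Real.exp_pos _).le, ?_, (Real.exp_pos _).le, ?_, ?_⟩
  · rw [Real.exp_le_one_iff]
    have := sj_mono i hbe
    have h3 : 0 ≤ 3 * T := by positivity
    nlinarith
  · rw [Real.exp_le_one_iff]
    have := sj_mono i (hab.trans hbe)
    have h3 : 0 ≤ 3 * T := by positivity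
    nlinarith
  · intro w
    have e1 : al i T a * de i T b * de i T e =
        Real.exp (rt i a b e * T) * Real.exp (3 * T * (sj i a - sj i e)) := by
      rw [al_sj, de_sj, de_sj, ← Real.exp_add, ← Real.exp_add, ← Real.exp_add, rt_sj]
      congr 1
      ring
    have e2 : al i T b * de i T a * de i T e =
        Real.exp (rt i a b e * T) * Real.exp (3 * T * (sj i b - sj i e)) := by
      rw [al_sj, de_sj, de_sj, ← Real.exp_add, ← Real.exp_add, ← Real.exp_add, rt_sj]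
      congr 1
      ring
    have e3 : al i T e * de i T a * de i T b = Real.exp (rt i a b e * T) := by
      rw [al_sj, de_sj, de_sj, ← Real.exp_add, ← Real.exp_add, rt_sj]
      congr 1
      ring
    have f1 := congrArg (fun r : ℝ => (r : ℂ)) e1
    have f2 := congrArg (fun r : ℝ => (r : ℂ)) e2
    have f3 := congrArg (fun r : ℝ => (r : ℂ)) e3
    simp only [Complex.ofReal_mul] at f1 f2 f3
    unfold dt conf b2
    simp only [Matrix.cons_val_zero, Matrix.cons_val_one, Matrix.cons_val]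
    linear_combination (w a 0 0 * (w b 0 1 * w e 0 2 - w b 0 2 * w e 0 1)) * f1
      - (w b 0 0 * (w a 0 1 * w e 0 2 - w a 0 2 * w e 0 1)) * f2
      + (w e 0 0 * (w a 0 1 * w b 0 2 - w a 0 2 * w b 0 1)) * f3

theorem coord_meas {k : ℕ} (a : Fin k) (l : Fin 3) : Measurable (fun w : Fin k → E 1 => w a 0 l) :=
  (measurable_pi_apply l).comp ((measurable_pi_apply (0 : Fin 1)).comp (measurable_pi_apply a))

/-- the reduced determinant -/
noncomputable def XX (A B : ℝ) (a b e : Fin 5) (w : Fin 5 → E 1) : ℂ :=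
  w e 0 0 * b2 (w a 0) (w b 0)
          - (A : ℂ) * (w b 0 0 * b2 (w a 0) (w e 0)) + (B : ℂ) * (w a 0 0 * b2 (w b 0) (w e 0))

theorem XX_meas (A B : ℝ) (a b e : Fin 5) : Measurable (XX A B a b e) := by
  have hb : ∀ x y : Fin 5, Measurable (fun w : Fin 5 → E 1 => b2 (w x 0) (w y 0)) := by
    intro x y
    unfold b2
    exact ((coord_meas x 1).mul (coord_meas y 2)).sub ((coord_meas x 2).mul (coord_meas y 1))
  unfold XX
  exact (((coord_meas e 0).mul (hb a b)).sub (((coord_meas b 0).mul (hb a e)).const_mul _)).add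
    (((coord_meas a 0).mul (hb b e)).const_mul _)

theorem XX_upd (A B : ℝ) {a b e : Fin 5} (hae : a ≠ e) (hbe : b ≠ e) (m : Fin 5 → E 1) (z : ℂ) :
    XX A B a b e (upd e 0 z m) = z * b2 (m a 0) (m b 0) + XX A B a b e (upd e 0 0 m) := by
  unfold XX upd b2
  simp [Function.update_of_ne hae, Function.update_of_ne hbe, Function.update_self]
  ring

/-- pointwise bound of `XX` -/
theorem XX_le (A B : ℝ) (hA0 : 0 ≤ A) (hA : A ≤ 1) (hB0 : 0 ≤ B) (hB : B ≤ 1) (a b e : Fin 5)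
    (w : Fin 5 → E 1) :
    ‖XX A B a b e w‖ₑ ≤ ‖w e 0 0‖ₑ * ‖w a 0 1‖ₑ * ‖w b 0 2‖ₑ + ‖w e 0 0‖ₑ * ‖w a 0 2‖ₑ * ‖w b 0 1‖ₑ
      + (‖w b 0 0‖ₑ * ‖w a 0 1‖ₑ * ‖w e 0 2‖ₑ + ‖w b 0 0‖ₑ * ‖w a 0 2‖ₑ * ‖w e 0 1‖ₑ)
      + (‖w a 0 0‖ₑ * ‖w b 0 1‖ₑ * ‖w e 0 2‖ₑ + ‖w a 0 0‖ₑ * ‖w b 0 2‖ₑ * ‖w e 0 1‖ₑ) := by
  have hb : ∀ x y z : Fin 5, ‖w x 0 0 * b2 (w y 0) (w z 0)‖ₑ ≤
      ‖w x 0 0‖ₑ * ‖w y 0 1‖ₑ * ‖w z 0 2‖ₑ + ‖w x 0 0‖ₑ * ‖w y 0 2‖ₑ * ‖w z 0 1‖ₑ := by
    intro x y z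
    unfold b2
    rw [enorm_mul]
    calc ‖w x 0 0‖ₑ * ‖w y 0 1 * w z 0 2 - w y 0 2 * w z 0 1‖ₑ
        ≤ ‖w x 0 0‖ₑ * (‖w y 0 1 * w z 0 2‖ₑ + ‖w y 0 2 * w z 0 1‖ₑ) := by
          gcongr
          exact enorm_sub_le
      _ = _ := by
          rw [enorm_mul, enorm_mul]
          ring
  have hr : ∀ (C : ℝ) (hC0 : 0 ≤ C) (hC : C ≤ 1) (x : ℂ), ‖(C : ℂ) * x‖ₑ ≤ ‖x‖ₑ := by
    intro C hC0 hC x
    rw [enorm_mul]
    calc ‖(C : ℂ)‖ₑ * ‖x‖ₑ ≤ 1 * ‖x‖ₑ := by
          gcongr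
          rw [← ofReal_norm, Complex.norm_real, Real.norm_of_nonneg hC0]
          exact ENNReal.ofReal_le_one.2 hC
      _ = ‖x‖ₑ := one_mul _
  unfold XX
  refine (enorm_add_le _ _).trans (add_le_add ((enorm_sub_le).trans (add_le_add (hb e a b) ?_)) ?_)
  · exact (hr A hA0 hA _).trans (hb b a e)
  · exact (hr B hB0 hB _).trans (hb a b e)

/-- pointwise bound of the logarithm -/
theorem log_XX (R : ℝ) (X : ℂ) (d : ℂ) (h : d = ((Real.exp R : ℝ) : ℂ) * X) :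
    ENNReal.ofReal |Real.log ‖d‖ - R| ≤ 2 * ‖X‖ₑ ^ (-(1 / 2) : ℝ) + ‖X‖ₑ := by
  by_cases hX : X = 0
  · rw [hX, enorm_zero, ENNReal.zero_rpow_of_neg (by norm_num)]
    simp
  · have : Real.log ‖d‖ - R = Real.log ‖X‖ := by
      rw [h, norm_mul, Complex.norm_real, Real.norm_of_nonneg (Real.exp_pos _).le,
        Real.log_mul (Real.exp_pos _).ne' (norm_ne_zero_iff.2 hX), Real.log_exp]
      ring
    rw [this]
    exact log_enorm_le X

/-- Proof: `X_T(w) = w_e^0 b2(w_a, w_b) - A w_b^0 b2(w_a, w_e) + B w_a^0 b2(w_b, w_e)` as in `conf_dt`.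
Pointwise `ofReal |LL .. - rt * T| <= 2 ‖X_T‖ₑ ^ (-(1/2)) + ‖X_T‖ₑ`: if `X_T w ≠ 0` the left side is
`ofReal |log ‖X_T‖|` (`Real.log_mul`, `Real.log_exp`) and this is `log_enorm_le`; if `X_T w = 0` the right
side is `∞`. Now `dom x` (constants `C1`, `c`), then `neg_mom` (for `X_T`: the coefficient of `w_e^0` is
`b2 (w a 0) (w b 0)`, since `a ≠ e`, `b ≠ e`) and `‖X_T‖ₑ <= ‖w_e^0 b2(w_a, w_b)‖ₑ + ..` (three terms,
`A, B <= 1`), whose integral is finite by `mom3` and does not depend on `T`. Take for `C` the sum over all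
triples (`Finset.sum` over `Fin 5 × Fin 5 × Fin 5`) of these bounds. -/
theorem rate_bound (x : Fin 5 → G3) (i : Fin 4) : ∃ C : ℝ≥0∞, C ≠ ∞ ∧
    ∀ T : ℝ, 0 ≤ T → ∀ a b e : Fin 5, a < b → b < e →
      ∫⁻ m, ENNReal.ofReal |LL (conf i T (xact x m) a) (conf i T (xact x m) b)
        (conf i T (xact x m) e) - rt i a b e * T| ∂(PP 5) ≤ C := by
  obtain ⟨C1, hC1, c, hc, hdom⟩ := dom x
  obtain ⟨C2, hC2, hneg⟩ := neg_mom hc 5
  -- the moment bound
  let M : Fin 5 → Fin 5 → Fin 5 → ℝ≥0∞ := fun a b e => ∫⁻ w, (‖w e 0 0‖ₑ * ‖w a 0 1‖ₑ * ‖w b 0 2‖ₑ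
      + ‖w e 0 0‖ₑ * ‖w a 0 2‖ₑ * ‖w b 0 1‖ₑ
      + (‖w b 0 0‖ₑ * ‖w a 0 1‖ₑ * ‖w e 0 2‖ₑ + ‖w b 0 0‖ₑ * ‖w a 0 2‖ₑ * ‖w e 0 1‖ₑ)
      + (‖w a 0 0‖ₑ * ‖w b 0 1‖ₑ * ‖w e 0 2‖ₑ + ‖w a 0 0‖ₑ * ‖w b 0 2‖ₑ * ‖w e 0 1‖ₑ)) ∂(mu c 5)
  have hme : ∀ (a : Fin 5) (l : Fin 3), Measurable (fun w : Fin 5 → E 1 => ‖w a 0 l‖ₑ) :=
    fun a l => (coord_meas a l).enorm
  have hM : ∀ a b e, M a b e ≠ ∞ := by
    intro a b e
    simp only [M]
    have h3 : ∀ (x y z : Fin 5) (l l' l'' : Fin 3), Measurable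
        (fun w : Fin 5 → E 1 => ‖w x 0 l‖ₑ * ‖w y 0 l'‖ₑ * ‖w z 0 l''‖ₑ) :=
      fun x y z l l' l'' => ((hme x l).mul (hme y l')).mul (hme z l'')
    rw [lintegral_add_left, lintegral_add_left, lintegral_add_left, lintegral_add_left,
      lintegral_add_left]
    · refine (ENNReal.add_lt_top.2 ⟨ENNReal.add_lt_top.2 ⟨ENNReal.add_lt_top.2 ⟨?_, ?_⟩,
        ENNReal.add_lt_top.2 ⟨?_, ?_⟩⟩, ENNReal.add_lt_top.2 ⟨?_, ?_⟩⟩).ne
      all_goals exact mom3 hc 5 _ _ _ _ _ _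
    · exact h3 _ _ _ _ _ _
    · exact h3 _ _ _ _ _ _
    · exact h3 _ _ _ _ _ _
    · exact (h3 _ _ _ _ _ _).add (h3 _ _ _ _ _ _)
    · exact ((h3 _ _ _ _ _ _).add (h3 _ _ _ _ _ _)).add ((h3 _ _ _ _ _ _).add (h3 _ _ _ _ _ _))
  refine ⟨C1 * (2 * C2 + ∑ a : Fin 5, ∑ b : Fin 5, ∑ e : Fin 5, M a b e), ?_, ?_⟩
  · refine ENNReal.mul_ne_top hC1 (ENNReal.add_ne_top.2 ⟨ENNReal.mul_ne_top (by norm_num) hC2, ?_⟩)
    exact (ENNReal.sum_lt_top.2 (fun a _ => ENNReal.sum_lt_top.2 (fun b _ =>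
      ENNReal.sum_lt_top.2 (fun e _ => (hM a b e).lt_top)))).ne
  · intro T hT a b e hab hbe
    obtain ⟨A, B, hA0, hA, hB0, hB, hdt⟩ := conf_dt i T hT a b e hab hbe
    have hX := XX_meas A B a b e
    have hpt : ∀ m : Fin 5 → E 1, ENNReal.ofReal |LL (conf i T (xact x m) a)
        (conf i T (xact x m) b) (conf i T (xact x m) e) - rt i a b e * T| ≤
        2 * ‖XX A B a b e (xact x m)‖ₑ ^ (-(1 / 2) : ℝ) + ‖XX A B a b e (xact x m)‖ₑ :=
      fun m => log_XX _ _ _ (hdt (xact x m))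
    refine (lintegral_mono hpt).trans ?_
    refine (hdom (fun w => 2 * ‖XX A B a b e w‖ₑ ^ (-(1 / 2) : ℝ) + ‖XX A B a b e w‖ₑ)
      (((hX.enorm.pow_const _).const_mul _).add hX.enorm)).trans ?_
    gcongr
    rw [lintegral_add_left ((hX.enorm.pow_const _).const_mul _),
      lintegral_const_mul _ (hX.enorm.pow_const _)]
    refine add_le_add ?_ ?_
    · gcongr
      exact hneg a b e hab.ne (hab.trans hbe).ne hbe.ne _ hX
        (fun m z => XX_upd A B (hab.trans hbe).ne hbe.ne m z)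
    · calc ∫⁻ w, ‖XX A B a b e w‖ₑ ∂(mu c 5) ≤ M a b e :=
            lintegral_mono (fun w => XX_le A B hA0 hA hB0 hB a b e w)
        _ ≤ ∑ e : Fin 5, M a b e := Finset.single_le_sum (f := fun e => M a b e)
            (fun _ _ => bot_le) (Finset.mem_univ e)
        _ ≤ ∑ b : Fin 5, ∑ e : Fin 5, M a b e := Finset.single_le_sum
            (f := fun b => ∑ e : Fin 5, M a b e) (fun _ _ => bot_le) (Finset.mem_univ b)
        _ ≤ ∑ a : Fin 5, ∑ b : Fin 5, ∑ e : Fin 5, M a b e := Finset.single_le_sum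
            (f := fun a => ∑ b : Fin 5, ∑ e : Fin 5, M a b e) (fun _ _ => bot_le)
            (Finset.mem_univ a)

private theorem cg_lt (i : Fin 4) (T : ℝ) (hT : 0 ≤ T) (a b e : Fin 5) (hab : a < b) (hbe : b < e) :
    ∀ᵐ w : Fin 5 → E 1, dt (conf i T w a) (conf i T w b) (conf i T w e) ≠ 0 := by
  obtain ⟨A, B, -, -, -, -, h⟩ := conf_dt i T hT a b e hab hbe
  have hae : a < e := hab.trans hbe
  have hX : ∀ᵐ m : Fin 5 → E 1, m e 0 0 * b2 (m a 0) (m b 0)
      - (A : ℂ) * (m b 0 0 * b2 (m a 0) (m e 0)) + (B : ℂ) * (m a 0 0 * b2 (m b 0) (m e 0)) ≠ 0 := by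
    refine ae_ne a b e hab.ne hae.ne hbe.ne (fun m => m e 0 0 * b2 (m a 0) (m b 0)
      - (A : ℂ) * (m b 0 0 * b2 (m a 0) (m e 0)) + (B : ℂ) * (m a 0 0 * b2 (m b 0) (m e 0))) ?_ ?_
    · unfold b2
      fun_prop
    · intro m z
      have h1 : ∀ z : ℂ, upd e 0 z m a = m a := fun z => Function.update_of_ne hae.ne _ _
      have h2 : ∀ z : ℂ, upd e 0 z m b = m b := fun z => Function.update_of_ne hbe.ne _ _
      have h3 : ∀ z : ℂ, upd e 0 z m e = fun _ => Function.update (m e 0) 0 z :=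
        fun z => Function.update_self _ _ _
      simp only [h1, h2, h3, b2, Function.update_self]
      rw [Function.update_of_ne (by decide), Function.update_of_ne (by decide),
        Function.update_of_ne (by decide), Function.update_of_ne (by decide)]
      ring
  filter_upwards [hX] with w hw
  rw [h w]
  exact mul_ne_zero (Complex.ofReal_ne_zero.mpr (Real.exp_pos _).ne') hw

private theorem dt_sw1 (x y z : Fin 3 → ℂ) : dt y x z = -dt x y z := by
  unfold dt; ring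

private theorem dt_sw2 (x y z : Fin 3 → ℂ) : dt x z y = -dt x y z := by
  unfold dt; ring

/-- Almost every configuration is generic. Proof: for `a < b < e` apply `ae_ne` to the `X_T` of `conf_dt`
(`Real.exp` is not zero); finitely many triples (`ae_all_iff`); an arbitrary triple of distinct indices
is a permutation of an increasing one and `dt` is alternating. -/
theorem conf_gen (i : Fin 4) (T : ℝ) (hT : 0 ≤ T) : ∀ᵐ w : Fin 5 → E 1, Gen (conf i T w) := by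
  have h : ∀ᵐ w : Fin 5 → E 1, ∀ a b e : Fin 5, a < b → b < e →
      dt (conf i T w a) (conf i T w b) (conf i T w e) ≠ 0 := by
    rw [ae_all_iff]; intro a
    rw [ae_all_iff]; intro b
    rw [ae_all_iff]; intro e
    by_cases hab : a < b
    · by_cases hbe : b < e
      · filter_upwards [cg_lt i T hT a b e hab hbe] with w hw
        exact fun _ _ => hw
      · exact Eventually.of_forall fun w _ h => absurd h hbe
    · exact Eventually.of_forall fun w h => absurd h hab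
  filter_upwards [h] with w hw
  intro a b e hab hae hbe
  rcases lt_or_gt_of_ne hab with h1 | h1
  · rcases lt_or_gt_of_ne hbe with h2 | h2
    · exact hw a b e h1 h2
    · rcases lt_or_gt_of_ne hae with h3 | h3
      · rw [dt_sw2]
        exact neg_ne_zero.mpr (hw a e b h3 h2)
      · rw [dt_sw2, dt_sw1, neg_neg]
        exact hw e a b h3 h1
  · rcases lt_or_gt_of_ne hae with h3 | h3
    · rw [dt_sw1]
      exact neg_ne_zero.mpr (hw b a e h1 h3)
    · rcases lt_or_gt_of_ne hbe with h2 | h2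
      · rw [dt_sw1, dt_sw2, neg_neg]
        exact hw b e a h2 h3
      · rw [dt_sw1, dt_sw2, dt_sw1, neg_neg]
        exact neg_ne_zero.mpr (hw e b a h2 h1)

/-- `w ↦ conf i T w` is measurable. -/
theorem conf_meas (i : Fin 4) (T : ℝ) : Measurable (conf i T) := by
  rw [measurable_pi_iff]
  intro j
  rw [measurable_pi_iff]
  intro l
  unfold conf
  have h : ∀ (c : ℂ) (l' : Fin 3), Measurable (fun w : Fin 5 → E 1 => c * w j 0 l') := by
    intro c l'
    fun_prop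
  fin_cases l
  · exact h _ 0
  · exact h _ 1
  · exact h _ 2

end Pool.Agent.Helper95.EXG
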