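import Pool.Agent.Helper95.EXG.G7

/-! Project EX, module Y, piece EXY-8: only the rates matter. -/

set_option autoImplicit false

namespace Pool.Agent.Helper95.EXG

open Pool.Agent.Helper87.EX MeasureTheory Complex Filter
open scoped Topology ENNReal

private theorem dt_meas8 (a b e : Fin 5) :
    Measurable (fun v : Fin 5 → Fin 3 → ℂ => dt (v a) (v b) (v e)) := by
  unfold dt
  fun_prop

/-- `DD` is measurable and bounded (`BW_meas`, `BW_bdd`; `dt` is a polynomial). -/
theorem DD_meas (p : Fin 5) : Measurable (fun v : Fin 5 → Fin 3 → ℂ => DD v p) := by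
  unfold DD VV
  exact BW_meas.comp (((dt_meas8 _ _ _).mul (dt_meas8 _ _ _)).div
    ((dt_meas8 _ _ _).mul (dt_meas8 _ _ _)))

theorem DD_bdd : ∃ C : ℝ, 0 ≤ C ∧ ∀ (v : Fin 5 → Fin 3 → ℂ) (p : Fin 5), |DD v p| ≤ C := by
  obtain ⟨C, hC, h⟩ := BW_bdd
  exact ⟨C, hC, fun v p => h _⟩

/-- `LL` is measurable. -/
theorem LL_meas (a b e : Fin 5) :
    Measurable (fun v : Fin 5 → Fin 3 → ℂ => LL (v a) (v b) (v e)) := by
  unfold LL
  exact Real.measurable_log.comp (dt_meas8 a b e).norm

private theorem cx_meas8 (x : Fin 5 → G3) (i : Fin 4) (T : ℝ) :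
    Measurable (fun m => conf i T (xact x m)) :=
  (conf_meas i T).comp (xact_meas x)

/-- `Psi (conf ..)` is integrable: by `Psi_eq` it is a finite sum of bounded measurable functions times
`LL - rt * T` (integrable by `rate_bound`) plus bounded functions. -/
theorem Psi_conf_int (x : Fin 5 → G3) (i : Fin 4) (T : ℝ) (hT : 0 ≤ T) :
    Integrable (fun m => Psi (conf i T (xact x m))) (PP 5) := by
  haveI := gam_prob 1
  haveI : IsProbabilityMeasure (PP 5) := by unfold PP; infer_instance
  obtain ⟨CD, hCD, hD⟩ := DD_bdd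
  obtain ⟨C, hC, hR⟩ := rate_bound x i
  simp only [Psi_eq]
  refine Integrable.const_mul (integrable_finset_sum _ fun p _ => integrable_finset_sum _ fun r _ => ?_) _
  have h01 : p.succAbove (r.succAbove 0) < p.succAbove (r.succAbove 1) :=
    Fin.strictMono_succAbove p (Fin.strictMono_succAbove r (by decide))
  have h12 : p.succAbove (r.succAbove 1) < p.succAbove (r.succAbove 2) :=
    Fin.strictMono_succAbove p (Fin.strictMono_succAbove r (by decide))
  have hL : Integrable (fun m => LL (conf i T (xact x m) (p.succAbove (r.succAbove 0)))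
      (conf i T (xact x m) (p.succAbove (r.succAbove 1)))
      (conf i T (xact x m) (p.succAbove (r.succAbove 2))) -
      rt i (p.succAbove (r.succAbove 0)) (p.succAbove (r.succAbove 1))
        (p.succAbove (r.succAbove 2)) * T) (PP 5) := by
    refine ⟨(((LL_meas _ _ _).comp (cx_meas8 x i T)).sub_const _).aestronglyMeasurable, ?_⟩
    rw [hasFiniteIntegral_iff_norm]
    exact lt_of_le_of_lt (hR T hT _ _ _ h01 h12) (lt_top_iff_ne_top.mpr hC)
  have hL2 : Integrable (fun m => LL (conf i T (xact x m) (p.succAbove (r.succAbove 0)))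
      (conf i T (xact x m) (p.succAbove (r.succAbove 1)))
      (conf i T (xact x m) (p.succAbove (r.succAbove 2)))) (PP 5) := by
    have := hL.add (integrable_const (μ := PP 5) (rt i (p.succAbove (r.succAbove 0))
      (p.succAbove (r.succAbove 1)) (p.succAbove (r.succAbove 2)) * T))
    refine this.congr (Filter.Eventually.of_forall fun m => ?_)
    simp
  refine hL2.bdd_mul (c := 1 * CD) ?_ (Filter.Eventually.of_forall fun m => ?_)
  · exact (((DD_meas p).comp (cx_meas8 x i T)).const_mul _).aestronglyMeasurable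
  · rw [norm_mul, norm_pow, norm_neg, norm_one, one_pow, Real.norm_eq_abs]
    exact mul_le_mul_of_nonneg_left (hD _ _) zero_le_one

theorem RS_conf_int (x : Fin 5 → G3) (i : Fin 4) (T : ℝ) :
    Integrable (fun m => RS i (conf i T (xact x m))) (PP 5) := by
  haveI := gam_prob 1
  haveI : IsProbabilityMeasure (PP 5) := by unfold PP; infer_instance
  obtain ⟨CD, hCD, hD⟩ := DD_bdd
  unfold RS
  refine Integrable.const_mul (integrable_finset_sum _ fun p _ => integrable_finset_sum _ fun r _ =>
    Integrable.mul_const ?_ _) _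
  refine Integrable.of_bound (C := 1 * CD) ?_ (Filter.Eventually.of_forall fun m => ?_)
  · exact (((DD_meas p).comp (cx_meas8 x i T)).const_mul _).aestronglyMeasurable
  · rw [norm_mul, norm_pow, norm_neg, norm_one, one_pow, Real.norm_eq_abs]
    exact mul_le_mul_of_nonneg_left (hD _ _) zero_le_one

/-- Proof: by `Psi_eq`, `Psi v - T * RS i v = -(1/3) ∑ ∑ (-1)^p DD v p (LL (..) - rt (..) * T)`
(the triple `p.succAbove (r.succAbove 0) < p.succAbove (r.succAbove 1) < p.succAbove (r.succAbove 2)` is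
increasing: `Fin.strictMono_succAbove`), so the norm of the integral is at most
`(1/3) * C_DD * 20 * C` with `C` from `rate_bound` (`norm_integral_le_lintegral_norm`-type bound). -/
theorem red_bound (x : Fin 5 → G3) (i : Fin 4) : ∃ C : ℝ, ∀ T : ℝ, 0 ≤ T →
    |(∫ m, Psi (conf i T (xact x m)) ∂(PP 5)) - T * ∫ m, RS i (conf i T (xact x m)) ∂(PP 5)| ≤ C := by
  haveI := gam_prob 1
  haveI : IsProbabilityMeasure (PP 5) := by unfold PP; infer_instance
  obtain ⟨CD, hCD, hD⟩ := DD_bdd
  obtain ⟨C, hC, hR⟩ := rate_bound x i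
  refine ⟨(1 / 3) * ∑ _p : Fin 5, ∑ _r : Fin 4, CD * C.toReal, fun T hT => ?_⟩
  let L : Fin 5 → Fin 4 → (Fin 5 → E 1) → ℝ := fun p r m =>
    LL (conf i T (xact x m) (p.succAbove (r.succAbove 0)))
      (conf i T (xact x m) (p.succAbove (r.succAbove 1)))
      (conf i T (xact x m) (p.succAbove (r.succAbove 2))) -
      rt i (p.succAbove (r.succAbove 0)) (p.succAbove (r.succAbove 1))
        (p.succAbove (r.succAbove 2)) * T
  have hlt : ∀ (p : Fin 5) (r : Fin 4), ∫⁻ m, ENNReal.ofReal |L p r m| ∂(PP 5) ≤ C := by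
    intro p r
    exact hR T hT _ _ _ (Fin.strictMono_succAbove p (Fin.strictMono_succAbove r (by decide)))
      (Fin.strictMono_succAbove p (Fin.strictMono_succAbove r (by decide)))
  have hL : ∀ (p : Fin 5) (r : Fin 4), Integrable (L p r) (PP 5) := by
    intro p r
    refine ⟨(((LL_meas _ _ _).comp (cx_meas8 x i T)).sub_const _).aestronglyMeasurable, ?_⟩
    rw [hasFiniteIntegral_iff_norm]
    exact lt_of_le_of_lt (hlt p r) (lt_top_iff_ne_top.mpr hC)
  have hLi : ∀ (p : Fin 5) (r : Fin 4), ∫ m, |L p r m| ∂(PP 5) ≤ C.toReal := by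
    intro p r
    rw [integral_eq_lintegral_of_nonneg_ae (Filter.Eventually.of_forall fun m => abs_nonneg _)
      (hL p r).abs.aestronglyMeasurable]
    exact ENNReal.toReal_mono hC (hlt p r)
  have hint : ∀ (p : Fin 5) (r : Fin 4),
      Integrable (fun m => (-1 : ℝ) ^ (p : ℕ) * DD (conf i T (xact x m)) p * L p r m) (PP 5) := by
    intro p r
    refine (hL p r).bdd_mul (c := 1 * CD) ?_ (Filter.Eventually.of_forall fun m => ?_)
    · exact (((DD_meas p).comp (cx_meas8 x i T)).const_mul _).aestronglyMeasurable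
    · rw [norm_mul, norm_pow, norm_neg, norm_one, one_pow, Real.norm_eq_abs]
      exact mul_le_mul_of_nonneg_left (hD _ _) zero_le_one
  have e : (∫ m, Psi (conf i T (xact x m)) ∂(PP 5)) - T * ∫ m, RS i (conf i T (xact x m)) ∂(PP 5)
      = -(1 / 3) * ∑ p : Fin 5, ∑ r : Fin 4,
        ∫ m, (-1 : ℝ) ^ (p : ℕ) * DD (conf i T (xact x m)) p * L p r m ∂(PP 5) := by
    rw [← integral_const_mul, ← integral_sub (Psi_conf_int x i T hT) ((RS_conf_int x i T).const_mul T)]
    have : ∀ p : Fin 5, ∑ r : Fin 4,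
        ∫ m, (-1 : ℝ) ^ (p : ℕ) * DD (conf i T (xact x m)) p * L p r m ∂(PP 5) =
        ∫ m, ∑ r : Fin 4, (-1 : ℝ) ^ (p : ℕ) * DD (conf i T (xact x m)) p * L p r m ∂(PP 5) :=
      fun p => (integral_finset_sum _ (fun r _ => hint p r)).symm
    rw [Finset.sum_congr rfl (fun p _ => this p),
      ← integral_finset_sum _ (fun p _ => integrable_finset_sum _ (fun r _ => hint p r)),
      ← integral_const_mul]
    refine integral_congr_ae (Filter.Eventually.of_forall fun m => ?_)
    simp only [Psi_eq, RS, L]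
    rw [mul_left_comm, ← mul_sub, Finset.mul_sum, ← Finset.sum_sub_distrib]
    congr 1
    refine Finset.sum_congr rfl (fun p _ => ?_)
    rw [Finset.mul_sum, ← Finset.sum_sub_distrib]
    refine Finset.sum_congr rfl (fun r _ => ?_)
    ring
  rw [e, abs_mul, show |(-(1 / 3) : ℝ)| = 1 / 3 by norm_num [abs_neg]]
  refine mul_le_mul_of_nonneg_left ?_ (by norm_num)
  refine (Finset.abs_sum_le_sum_abs _ _).trans (Finset.sum_le_sum fun p _ => ?_)
  refine (Finset.abs_sum_le_sum_abs _ _).trans (Finset.sum_le_sum fun r _ => ?_)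
  calc |∫ m, (-1 : ℝ) ^ (p : ℕ) * DD (conf i T (xact x m)) p * L p r m ∂(PP 5)|
      ≤ ∫ m, |(-1 : ℝ) ^ (p : ℕ) * DD (conf i T (xact x m)) p * L p r m| ∂(PP 5) :=
        abs_integral_le_integral_abs
    _ ≤ ∫ m, CD * |L p r m| ∂(PP 5) := by
        refine integral_mono (hint p r).abs ((hL p r).abs.const_mul _) (fun m => ?_)
        simp only
        rw [abs_mul, abs_mul, abs_pow, abs_neg, abs_one, one_pow, one_mul]
        exact mul_le_mul_of_nonneg_right (hD _ _) (abs_nonneg _)
    _ = CD * ∫ m, |L p r m| ∂(PP 5) := integral_const_mul _ _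
    _ ≤ CD * C.toReal := mul_le_mul_of_nonneg_left (hLi p r) hCD

/-- Proof: divide `red_bound` by `T` and let `T → ∞`. -/
theorem red (x : Fin 5 → G3) (i : Fin 4) :
    Tendsto (fun T : ℝ => (∫ m, Psi (conf i T (xact x m)) ∂(PP 5)) / T
      - ∫ m, RS i (conf i T (xact x m)) ∂(PP 5)) atTop (𝓝 0) := by
  obtain ⟨C, hC⟩ := red_bound x i
  have h0 : Tendsto (fun T : ℝ => C / T) atTop (𝓝 0) := tendsto_const_nhds.div_atTop tendsto_id
  refine squeeze_zero_norm' ?_ h0
  filter_upwards [eventually_gt_atTop 0] with T hT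
  have h1 := hC T hT.le
  rw [Real.norm_eq_abs]
  have e : (∫ m, Psi (conf i T (xact x m)) ∂(PP 5)) / T - ∫ m, RS i (conf i T (xact x m)) ∂(PP 5)
      = ((∫ m, Psi (conf i T (xact x m)) ∂(PP 5)) -
        T * ∫ m, RS i (conf i T (xact x m)) ∂(PP 5)) / T := by
    field_simp
  rw [e, abs_div, abs_of_pos hT]
  exact div_le_div_of_nonneg_right h1 hT.le

end Pool.Agent.Helper95.EXG
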